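import Pool.Agent.Lib.MP_6fca61_gt_W.K22

/-!
# MP_6fca61_gt (project W): the bracket of the explicit data in a frame.
-/

set_option autoImplicit false
set_option linter.unusedVariables false

namespace Pool.Agent.Lib.MP_6fca61_gt_W

noncomputable section

theorem qf_addr (u v w : E3) : qf u (v + w) = qf u v + qf u w := by simp [qf]; ring
theorem rf_addr (u v w : E3) : rf u (v + w) = rf u v + rf u w := by simp [rf]; ring
theorem dt_addr (u v w : E3) : dt u (v + w) = dt u v + dt u w := by simp [dt]; ring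
theorem vf_add (v w : E3) : vf (v + w) = vf v + vf w := by simp [vf]; ring
theorem qf_smulr (a : ℝ) (u v : E3) : qf u (a • v) = a * qf u v := by simp [qf]; ring
theorem rf_smulr (a : ℝ) (u v : E3) : rf u (a • v) = a * rf u v := by simp [rf]; ring
theorem dt_smulr (a : ℝ) (u v : E3) : dt u (a • v) = a * dt u v := by simp [dt]; ring
theorem vf_smul (a : ℝ) (v : E3) : vf (a • v) = a * vf v := by simp [vf]; ring
theorem qf_negr (u v : E3) : qf u (-v) = -qf u v := by simp [qf]; ring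
theorem vf_neg (v : E3) : vf (-v) = -vf v := by simp [vf]; ring

/-- Symmetric and linear in the second variable. -/
def SB (B : E3 → E3 → ℝ) : Prop :=
  (∀ u w, B u w = B w u) ∧ (∀ u v w, B u (v + w) = B u v + B u w) ∧
    ∀ (a : ℝ) u v, B u (a • v) = a * B u v

theorem SB.isBil {B : E3 → E3 → ℝ} (h : SB B) : IsBil B := by
  refine ⟨fun u v w => ?_, h.2.1, fun a u v => ?_, h.2.2⟩
  · rw [h.1, h.2.1, h.1 w u, h.1 w v]
  · rw [h.1, h.2.2, h.1 v u]

theorem SB.ev {B : E3 → E3 → ℝ} (h : SB B) (x X : E3) (a b c a' b' c' : ℝ) :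
    B (cb x X a b c) (cb x X a' b' c') =
      evn (B x x) (B x X) (B x (cr x X)) (B X X) (B X (cr x X)) (B (cr x X) (cr x X))
        a b c a' b' c' := by
  rw [h.isBil.cb, h.1 X x, h.1 (cr x X) x, h.1 (cr x X) X, evn]
  ring

theorem sb_pf (δ : ℝ) (x : E3) : SB (pf δ x) := by
  refine ⟨fun u w => ?_, fun u v w => ?_, fun a u v => ?_⟩
  · simp only [pf, P1, P0, rf_comm u w, dt_comm u w]; ring
  · simp only [pf, P1, P0, rf_addr, qf_addr, dt_addr]; ring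
  · simp only [pf, P1, P0, rf_smulr, qf_smulr, dt_smulr]; ring

theorem sb_pd (δ : ℝ) (x Z : E3) : SB (pd δ x Z) := by
  refine ⟨fun u w => ?_, fun u v w => ?_, fun a u v => ?_⟩
  · simp only [pd, P1d, P0d, dt_comm u w]; ring
  · simp only [pd, P1d, P0d, rf_addr, qf_addr, dt_addr]; ring
  · simp only [pd, P1d, P0d, rf_smulr, qf_smulr, dt_smulr]; ring

theorem sb_pdd (δ : ℝ) (x X : E3) : SB (pdd δ x X) := by
  have h := sb_pd δ x x
  refine ⟨fun u w => ?_, fun u v w => ?_, fun a u v => ?_⟩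
  · simp only [pdd, P1dd, P0dd, P1d, h.1 u w, dt_comm u w]; ring
  · simp only [pdd, P1dd, P0dd, P1d, h.2.1, rf_addr, qf_addr, dt_addr]; ring
  · simp only [pdd, P1dd, P0dd, P1d, h.2.2, rf_smulr, qf_smulr, dt_smulr]; ring

theorem Sf_eq (δ σ : ℝ) (x u w : E3) : Sf δ σ x u w =
    -(1 / 2) * (dt x u * dt x w) + δ ^ 3 * σ * (dt x u * vf w + vf u * dt x w)
    + δ ^ 4 * pf δ x u w := rfl

theorem Sd_eq (δ σ : ℝ) (x Z u w : E3) : Sd δ σ x Z u w =
    -(1 / 2) * (dt Z u * dt x w + dt x u * dt Z w) + δ ^ 3 * σ * (dt Z u * vf w + vf u * dt Z w)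
    + δ ^ 4 * pd δ x Z u w := rfl

theorem S2_eq (δ σ : ℝ) (x X u w : E3) : Sdd δ x X u w - Sd δ σ x x u w =
    -(dt X u * dt X w) + dt x u * dt x w - δ ^ 3 * σ * (dt x u * vf w + vf u * dt x w)
    + δ ^ 4 * pdd δ x X u w := by
  simp only [Sdd, Sd_eq, pdd]; ring

theorem sb_Sf (δ σ : ℝ) (x : E3) : SB (Sf δ σ x) := by
  have h := sb_pf δ x
  refine ⟨fun u w => ?_, fun u v w => ?_, fun a u v => ?_⟩
  · simp only [Sf_eq, h.1 u w]; ring
  · simp only [Sf_eq, h.2.1, dt_addr, vf_add]; ring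
  · simp only [Sf_eq, h.2.2, dt_smulr, vf_smul]; ring

theorem sb_Sd (δ σ : ℝ) (x Z : E3) : SB (Sd δ σ x Z) := by
  have h := sb_pd δ x Z
  refine ⟨fun u w => ?_, fun u v w => ?_, fun a u v => ?_⟩
  · simp only [Sd_eq, h.1 u w]; ring
  · simp only [Sd_eq, h.2.1, dt_addr, vf_add]; ring
  · simp only [Sd_eq, h.2.2, dt_smulr, vf_smul]; ring

theorem sb_S2 (δ σ : ℝ) (x X : E3) : SB (fun u w => Sdd δ x X u w - Sd δ σ x x u w) := by
  have h := sb_pdd δ x X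
  refine ⟨fun u w => ?_, fun u v w => ?_, fun a u v => ?_⟩
  · simp only [S2_eq, h.1 u w]; ring
  · simp only [S2_eq, h.2.1, dt_addr, vf_add]; ring
  · simp only [S2_eq, h.2.2, dt_smulr, vf_smul]; ring

theorem cr_cb (x X : E3) (h : ON x X) (a b c s t r : ℝ) :
    cr (cb x X a b c) (cb x X s t r) =
      cb x X (b * r - c * t) (c * s - a * r) (a * t - b * s) := by
  conv_lhs => rw [show cb x X a b c = a • x + b • X + c • cr x X from rfl]
  rw [cr_add, cr_add, cr_smul, cr_smul, cr_smul, cr_cb_x x X h, cr_cb_X x X h, cr_cb_Y x X h,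
    smul_cb, smul_cb, smul_cb, cb_add, cb_add]
  congr 1 <;> ring

theorem af_X (δ σ : ℝ) (x X : E3) :
    af δ σ x X = cb x X (-hd δ σ x (cr x X)) 0 (be δ σ x - 1) := by
  simp only [af, cb, neg_smul, zero_smul]
  abel

theorem ad_X (δ σ : ℝ) (x X : E3) :
    ad δ σ x X = cb x X (-(2 * δ * qf X (cr x X))) (-hd δ σ x (cr x X))
      (be δ σ x * hd δ σ x X) := by
  simp only [ad, cb, neg_smul]
  abel

theorem af_Y (δ σ : ℝ) (x X : E3) (h : ON x X) :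
    af δ σ x (cr x X) = cb x X (hd δ σ x X) (-(be δ σ x - 1)) 0 := by
  simp only [af, cr_x_Y x X h, cb, hd, qf_negr, vf_neg, smul_neg, zero_smul, neg_smul]
  simp only [mul_neg, neg_smul, sub_neg_eq_add, add_zero, ← neg_add]
  abel

/-- The coefficients of the bracket along the frame. -/
def kk (k : ℝ → ℝ → ℝ → ℝ → ℝ → ℝ → ℝ → ℝ → ℝ → ℝ → ℝ → ℝ → ℝ → ℝ → ℝ → ℝ → ℝ → ℝ → ℝ → ℝ →
    ℝ → ℝ → ℝ → ℝ → ℝ → ℝ → ℝ → ℝ → ℝ → ℝ → ℝ → ℝ → ℝ) (δ σ : ℝ) (x X : E3) : ℝ :=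
  k δ (be δ σ x) (σ * vf x) (σ * vf X) (σ * vf (cr x X)) (qf x X) (qf x (cr x X))
    (qf X (cr x X))
    (pf δ x x x) (pf δ x x X) (pf δ x x (cr x X)) (pf δ x X X) (pf δ x X (cr x X))
    (pf δ x (cr x X) (cr x X))
    (pd δ x X x x) (pd δ x X x X) (pd δ x X x (cr x X)) (pd δ x X X X) (pd δ x X X (cr x X))
    (pd δ x X (cr x X) (cr x X))
    (pd δ x (cr x X) x x) (pd δ x (cr x X) x X) (pd δ x (cr x X) x (cr x X))
    (pd δ x (cr x X) X X) (pd δ x (cr x X) X (cr x X)) (pd δ x (cr x X) (cr x X) (cr x X))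
    (pdd δ x X x x) (pdd δ x X x X) (pdd δ x X x (cr x X)) (pdd δ x X X X)
    (pdd δ x X X (cr x X)) (pdd δ x X (cr x X) (cr x X))

theorem Brk_cb (δ σ : ℝ) (x X : E3) (h : ON x X) (s0 s1 s2 : ℝ) :
    Brk δ σ x X (cb x X s0 s1 s2) =
      kk k00 δ σ x X * s0 ^ 2 + kk k11 δ σ x X * s1 ^ 2 + kk k01 δ σ x X * (s0 * s1)
      + kk k02 δ σ x X * (s0 * (δ ^ 3 * s2)) + kk k12 δ σ x X * (s1 * (δ ^ 3 * s2))
      + δ ^ 4 * kk k22 δ σ x X * s2 ^ 2 := by
  have hx : dt x (cr x X) = 0 := by simp [dt, cr]; ring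
  have hX : dt X (cr x X) = 0 := by simp [dt, cr]; ring
  have hx' : dt (cr x X) x = 0 := by rw [dt_comm, hx]
  have hX' : dt (cr x X) X = 0 := by rw [dt_comm, hX]
  have hY : dt (cr x X) (cr x X) = 1 := by
    obtain ⟨h1, h2, h3⟩ := h
    simp only [dt] at h1 h2 h3
    simp [dt, cr]
    linear_combination (X 0 * X 0 + X 1 * X 1 + X 2 * X 2) * h1 + h2
      - (x 0 * X 0 + x 1 * X 1 + x 2 * X 2) * h3
  obtain ⟨hxx, hXX, hxX⟩ := id h
  have hXx : dt X x = 0 := by rw [dt_comm, hxX]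
  have hb : Brk δ σ x X (cb x X s0 s1 s2) =
      bn (be δ σ x) (hd δ σ x X) (hd δ σ x (cr x X)) (2 * δ * qf X (cr x X)) (2 * δ * qf x X)
        (2 * δ * qf x (cr x X)) s0 s1 s2
        (Sf δ σ x x x) (Sf δ σ x x X) (Sf δ σ x x (cr x X)) (Sf δ σ x X X) (Sf δ σ x X (cr x X))
        (Sf δ σ x (cr x X) (cr x X))
        (Sd δ σ x X x x) (Sd δ σ x X x X) (Sd δ σ x X x (cr x X)) (Sd δ σ x X X X)
        (Sd δ σ x X X (cr x X)) (Sd δ σ x X (cr x X) (cr x X))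
        (Sd δ σ x (cr x X) x x) (Sd δ σ x (cr x X) x X) (Sd δ σ x (cr x X) x (cr x X))
        (Sd δ σ x (cr x X) X X) (Sd δ σ x (cr x X) X (cr x X))
        (Sd δ σ x (cr x X) (cr x X) (cr x X))
        (Sdd δ x X x x - Sd δ σ x x x x) (Sdd δ x X x X - Sd δ σ x x x X)
        (Sdd δ x X x (cr x X) - Sd δ σ x x x (cr x X)) (Sdd δ x X X X - Sd δ σ x x X X)
        (Sdd δ x X X (cr x X) - Sd δ σ x x X (cr x X))
        (Sdd δ x X (cr x X) (cr x X) - Sd δ σ x x (cr x X) (cr x X)) := by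
    have e2 := (sb_S2 δ σ x X).ev x X
    simp only [Brk, brk, af_X δ σ x X, ad_X, af_Y δ σ x X h, cr_cb x X h, (sb_Sf δ σ x).ev x X,
      (sb_Sd δ σ x X).ev x X, (sb_Sd δ σ x (cr x X)).ev x X] at e2 ⊢
    rw [e2]
    simp only [bn, evn]
    ring
  rw [hb]
  have := bn_eq s0 s1 s2 δ (be δ σ x) (σ * vf x) (σ * vf X) (σ * vf (cr x X)) (qf x X)
    (qf x (cr x X)) (qf X (cr x X))
    (pf δ x x x) (pf δ x x X) (pf δ x x (cr x X)) (pf δ x X X) (pf δ x X (cr x X))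
    (pf δ x (cr x X) (cr x X))
    (pd δ x X x x) (pd δ x X x X) (pd δ x X x (cr x X)) (pd δ x X X X) (pd δ x X X (cr x X))
    (pd δ x X (cr x X) (cr x X))
    (pd δ x (cr x X) x x) (pd δ x (cr x X) x X) (pd δ x (cr x X) x (cr x X))
    (pd δ x (cr x X) X X) (pd δ x (cr x X) X (cr x X)) (pd δ x (cr x X) (cr x X) (cr x X))
    (pdd δ x X x x) (pdd δ x X x X) (pdd δ x X x (cr x X)) (pdd δ x X X X)
    (pdd δ x X X (cr x X)) (pdd δ x X (cr x X) (cr x X))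
  simp only [kk]
  rw [← this]
  simp only [S2_eq]
  simp only [Sf_eq, Sd_eq, hx, hX, hY, hxx, hXX, hxX, hXx, hx', hX', hd]
  congr 1 <;> ring

end

end Pool.Agent.Lib.MP_6fca61_gt_W
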