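import Pool.Agent.Lib.MP_6fca61_gt_W.Brack

/-!
# MP_6fca61_gt (project W): continuity of the explicit expressions.
-/

set_option autoImplicit false
set_option linter.unusedVariables false

namespace Pool.Agent.Lib.MP_6fca61_gt_W

noncomputable section

variable {T : Type*} [TopologicalSpace T] {d s : T → ℝ} {A B C D F : T → E3}

@[fun_prop]
theorem c_qf (hA : Continuous A) (hB : Continuous B) : Continuous fun w => qf (A w) (B w) := by
  simp only [qf]; fun_prop

@[fun_prop]
theorem c_rf (hA : Continuous A) (hB : Continuous B) : Continuous fun w => rf (A w) (B w) := by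
  simp only [rf]; fun_prop

@[fun_prop]
theorem c_dt (hA : Continuous A) (hB : Continuous B) : Continuous fun w => dt (A w) (B w) := by
  simp only [dt]; fun_prop

@[fun_prop]
theorem c_vf (hA : Continuous A) : Continuous fun w => vf (A w) := by
  simp only [vf]; fun_prop

theorem c_mk {f g h : T → ℝ} (hf : Continuous f) (hg : Continuous g) (hh : Continuous h) :
    Continuous fun w => (!₂[f w, g w, h w] : E3) := by
  refine (PiLp.continuous_toLp 2 _).comp (continuous_pi fun i => ?_)
  fin_cases i <;> simpa

@[fun_prop]
theorem c_Qv (hA : Continuous A) : Continuous fun w => Qv (A w) := by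
  simp only [Qv]; exact c_mk (by fun_prop) (by fun_prop) (by fun_prop)

@[fun_prop]
theorem c_cr (hA : Continuous A) (hB : Continuous B) : Continuous fun w => cr (A w) (B w) := by
  simp only [cr]; exact c_mk (by fun_prop) (by fun_prop) (by fun_prop)

@[fun_prop]
theorem c_psi (hdd : Continuous d) (hA : Continuous A) : Continuous fun w => psi (d w) (A w) := by
  simp only [psi]; fun_prop

@[fun_prop]
theorem c_be (σ : ℝ) (hdd : Continuous d) (hA : Continuous A) :
    Continuous fun w => be (d w) σ (A w) := by
  simp only [be, hh]; fun_prop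

@[fun_prop]
theorem c_Wf (σ : ℝ) (hdd : Continuous d) (hA : Continuous A) :
    Continuous fun w => Wf (d w) σ (A w) := by
  simp only [Wf]; fun_prop

@[fun_prop]
theorem c_hd (σ : ℝ) (hdd : Continuous d) (hA : Continuous A) (hB : Continuous B) :
    Continuous fun w => hd (d w) σ (A w) (B w) := by
  simp only [MP_6fca61_gt_W.hd]; fun_prop

@[fun_prop]
theorem c_Wd (σ : ℝ) (hdd : Continuous d) (hA : Continuous A) (hB : Continuous B) :
    Continuous fun w => Wd (d w) σ (A w) (B w) := by
  simp only [Wd]; fun_prop

@[fun_prop]
theorem c_P1 (hA : Continuous A) (hB : Continuous B) (hC : Continuous C) :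
    Continuous fun w => P1 (A w) (B w) (C w) := by
  simp only [P1]; fun_prop

@[fun_prop]
theorem c_P0 (hA : Continuous A) (hB : Continuous B) (hC : Continuous C) :
    Continuous fun w => P0 (A w) (B w) (C w) := by
  simp only [P0]; fun_prop

@[fun_prop]
theorem c_P1d (hA : Continuous A) (hB : Continuous B) (hC : Continuous C) (hD : Continuous D) :
    Continuous fun w => P1d (A w) (B w) (C w) (D w) := by
  simp only [P1d]; fun_prop

@[fun_prop]
theorem c_P1dd (hA : Continuous A) (hB : Continuous B) (hC : Continuous C) :
    Continuous fun w => P1dd (A w) (B w) (C w) := by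
  simp only [P1dd]; fun_prop

@[fun_prop]
theorem c_P0d (hA : Continuous A) (hB : Continuous B) (hC : Continuous C) (hD : Continuous D) :
    Continuous fun w => P0d (A w) (B w) (C w) (D w) := by
  simp only [P0d]; fun_prop

@[fun_prop]
theorem c_P0dd (hA : Continuous A) (hB : Continuous B) (hC : Continuous C) (hD : Continuous D) :
    Continuous fun w => P0dd (A w) (B w) (C w) (D w) := by
  simp only [P0dd]; fun_prop

@[fun_prop]
theorem c_pf (hdd : Continuous d) (hA : Continuous A) (hB : Continuous B) (hC : Continuous C) :
    Continuous fun w => pf (d w) (A w) (B w) (C w) := by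
  simp only [pf]; fun_prop

@[fun_prop]
theorem c_pd (hdd : Continuous d) (hA : Continuous A) (hB : Continuous B) (hC : Continuous C)
    (hD : Continuous D) : Continuous fun w => pd (d w) (A w) (B w) (C w) (D w) := by
  simp only [pd]; fun_prop

@[fun_prop]
theorem c_pdd (hdd : Continuous d) (hA : Continuous A) (hB : Continuous B) (hC : Continuous C)
    (hD : Continuous D) : Continuous fun w => pdd (d w) (A w) (B w) (C w) (D w) := by
  simp only [pdd]; fun_prop

theorem c_kk00 (σ : ℝ) (hdd : Continuous d) (hA : Continuous A) (hB : Continuous B) :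
    Continuous fun w => kk k00 (d w) σ (A w) (B w) := by
  simp only [kk, k00]; fun_prop

theorem c_kk11 (σ : ℝ) (hdd : Continuous d) (hA : Continuous A) (hB : Continuous B) :
    Continuous fun w => kk k11 (d w) σ (A w) (B w) := by
  simp only [kk, k11]; fun_prop

theorem c_kk01 (σ : ℝ) (hdd : Continuous d) (hA : Continuous A) (hB : Continuous B) :
    Continuous fun w => kk k01 (d w) σ (A w) (B w) := by
  simp only [kk, k01]; fun_prop

theorem c_kk02 (σ : ℝ) (hdd : Continuous d) (hA : Continuous A) (hB : Continuous B) :
    Continuous fun w => kk k02 (d w) σ (A w) (B w) := by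
  simp only [kk, k02]; fun_prop

theorem c_kk12 (σ : ℝ) (hdd : Continuous d) (hA : Continuous A) (hB : Continuous B) :
    Continuous fun w => kk k12 (d w) σ (A w) (B w) := by
  simp only [kk, k12]; fun_prop

end

end Pool.Agent.Lib.MP_6fca61_gt_W
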