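import Pool.Agent.Lib.MP_6fca61_gt_W.Frame

/-!
# MP_6fca61_gt (project W): the bracket in a frame, as a polynomial.
-/

set_option autoImplicit false
set_option linter.unusedVariables false

namespace Pool.Agent.Lib.MP_6fca61_gt_W

noncomputable section

/-- The value of a symmetric bilinear form with given entries. -/
def evn (A00 A01 A02 A11 A12 A22 u0 u1 u2 w0 w1 w2 : ℝ) : ℝ :=
  u0 * w0 * A00 + (u0 * w1 + u1 * w0) * A01 + (u0 * w2 + u2 * w0) * A02 + u1 * w1 * A11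
    + (u1 * w2 + u2 * w1) * A12 + u2 * w2 * A22

/-- The bracket in terms of the entries. -/
def bn (t h1 h2 h12 k1 k2 s0 s1 s2 A00 A01 A02 A11 A12 A22 B00 B01 B02 B11 B12 B22
    C00 C01 C02 C11 C12 C22 D00 D01 D02 D11 D12 D22 : ℝ) : ℝ :=
  evn D00 D01 D02 D11 D12 D22 s0 s1 s2 s0 s1 s2
    - 4 * evn B00 B01 B02 B11 B12 B22 (-((t - 1) * s1)) ((t - 1) * s0 + h2 * s2) (-(h2 * s1))
        s0 s1 s2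
    - 2 * evn A00 A01 A02 A11 A12 A22 (-(h2 * s2) - t * h1 * s1) (t * h1 * s0 + h12 * s2)
        (h2 * s0 - h12 * s1) s0 s1 s2
    + 2 * evn A00 A01 A02 A11 A12 A22
        (-((t - 1) * ((t - 1) * s0 + h2 * s2))) ((t - 1) * (-((t - 1) * s1)) + h2 * (-(h2 * s1)))
        (-(h2 * ((t - 1) * s0 + h2 * s2))) s0 s1 s2
    + 2 * evn A00 A01 A02 A11 A12 A22 (-((t - 1) * s1)) ((t - 1) * s0 + h2 * s2) (-(h2 * s1))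
        (-((t - 1) * s1)) ((t - 1) * s0 + h2 * s2) (-(h2 * s1))
    - k1 * (evn B00 B01 B02 B11 B12 B22 s0 s1 s2 s0 s1 s2
      - 2 * evn A00 A01 A02 A11 A12 A22 (-((t - 1) * s1)) ((t - 1) * s0 + h2 * s2) (-(h2 * s1))
        s0 s1 s2)
    + k2 * (evn C00 C01 C02 C11 C12 C22 s0 s1 s2 s0 s1 s2
      - 2 * evn A00 A01 A02 A11 A12 A22 (-((t - 1) * s2)) (-(h1 * s2)) ((t - 1) * s0 + h1 * s1)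
        s0 s1 s2)

/-- A coefficient of the bracket in the frame. -/
def k00 (
    d t f0 f1 f2 q01 q02 q12 p00 p01 p02 p11 p12 p22 x00 x01 x02 x11 x12 x22 y00 y01 y02 y11
    y12 y22 w00 w01 w02 w11 w12 w22 : ℝ) : ℝ :=
  (-2)*d^7*t*f1*p01 + (-2)*d^7*t*f2*p02 + (-2)*d^6*t*f1^2 + (-2)*d^6*t*f2^2
  + (-8)*d^5*t*q02*p02 + (-4)*d^5*q01*p01 + (-2)*d^5*q01*x00 + 4*d^5*q02*p02 + 2*d^5*q02*y00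
  + (-2)*d^4*t^2*p00 + 2*d^4*t^2*p11 + (-8)*d^4*t*f2*q02 + 4*d^4*t*p00 + (-4)*d^4*t*p11
  + (-4)*d^4*t*x01 + (-4)*d^4*f1*q01 + 4*d^4*f2*q02 + (-2)*d^4*p00 + 2*d^4*p11 + 4*d^4*x01
  + d^4*w00 + (-4)*d^3*t^2*f0 + 4*d^3*t*f0 + (-2)*d^3*f0 + t^2

/-- A coefficient of the bracket in the frame. -/
def k11 (
    d t f0 f1 f2 q01 q02 q12 p00 p01 p02 p11 p12 p22 x00 x01 x02 x11 x12 x22 y00 y01 y02 y11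
    y12 y22 w00 w01 w02 w11 w12 w22 : ℝ) : ℝ :=
  (-2)*d^10*f2^2*p11 + 2*d^10*f2^2*p22 + (-4)*d^8*f1*q02*p12 + (-4)*d^8*f2*q01*p12
  + (-8)*d^8*f2*q02*p11 + 8*d^8*f2*q02*p22 + 2*d^7*t*f1*p01 + 4*d^7*t*f2*p02 + (-4)*d^7*f2*p02
  + 4*d^7*f2*x12 + 2*d^6*t*f1^2 + 4*d^6*t*f2^2 + (-16)*d^6*q01*q02*p12 + (-8)*d^6*q02^2*p11
  + 8*d^6*q02^2*p22 + 8*d^5*t*q02*p02 + 4*d^5*q01*p01 + (-2)*d^5*q01*x11 + (-8)*d^5*q02*p02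
  + 8*d^5*q02*x12 + 2*d^5*q02*y11 + 4*d^5*q12*p12 + 2*d^4*t^2*p00 + (-2)*d^4*t^2*p11
  + 8*d^4*t*f2*q02 + (-4)*d^4*t*p00 + 4*d^4*t*p11 + 4*d^4*t*x01 + 2*d^4*p00 + (-2)*d^4*p11
  + (-4)*d^4*x01 + d^4*w11 + 4*d^3*t^2*f0 + (-4)*d^3*t*f0 + (-1)*t^2

/-- A coefficient of the bracket in the frame. -/
def k01 (
    d t f0 f1 f2 q01 q02 q12 p00 p01 p02 p11 p12 p22 x00 x01 x02 x11 x12 x22 y00 y01 y02 y11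
    y12 y22 w00 w01 w02 w11 w12 w22 : ℝ) : ℝ :=
  (-2)*d^10*f2^2*p01 + (-2)*d^9*f1*f2^2 + (-4)*d^8*f1*q02*p02 + (-4)*d^8*f2*q01*p02
  + (-8)*d^8*f2*q02*p01 + 2*d^7*t*f1*p00 + (-2)*d^7*t*f1*p11 + (-6)*d^7*t*f2*p12
  + (-12)*d^7*f1*f2*q02 + (-4)*d^7*f2^2*q01 + 4*d^7*f2*p12 + 4*d^7*f2*x02 + 4*d^6*t*f0*f1
  + (-16)*d^6*q01*q02*p02 + (-8)*d^6*q02^2*p01 + (-16)*d^5*t*q02*p12 + (-8)*d^5*f1*q02^2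
  + (-16)*d^5*f2*q01*q02 + 4*d^5*q01*p00 + (-4)*d^5*q01*p11 + (-4)*d^5*q01*x01 + 12*d^5*q02*p12
  + 8*d^5*q02*x02 + 4*d^5*q02*y01 + 4*d^5*q12*p02 + (-8)*d^4*t^2*p01 + 16*d^4*t*p01
  + 4*d^4*t*x00 + (-4)*d^4*t*x11 + 4*d^4*f0*q01 + 4*d^4*f2*q12 + (-8)*d^4*p01 + (-4)*d^4*x00
  + 4*d^4*x11 + 2*d^4*w01 + (-8)*d^3*t^2*f1 + 7*d^3*t*f1 + (-2)*d^3*f1

/-- A coefficient of the bracket in the frame. -/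
def k02 (
    d t f0 f1 f2 q01 q02 q12 p00 p01 p02 p11 p12 p22 x00 x01 x02 x11 x12 x22 y00 y01 y02 y11
    y12 y22 w00 w01 w02 w11 w12 w22 : ℝ) : ℝ :=
  (-2)*d^7*f2^2*p02 + (-2)*d^6*f2^3 + 4*d^5*f1*q02*p01 + 4*d^5*f2*q01*p01 + (-8)*d^5*f2*q02*p02
  + (-2)*d^4*t*f1*p12 + (-2)*d^4*t*f2*p00 + 4*d^4*t*f2*p11 + (-2)*d^4*t*f2*p22 + 4*d^4*f1^2*q02
  + 4*d^4*f1*f2*q01 + (-8)*d^4*f2^2*q02 + 4*d^4*f2*p00 + (-4)*d^4*f2*p11 + (-4)*d^4*f2*x01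
  + (-4)*d^3*t*f0*f2 + 4*d^3*f0*f2 + 16*d^3*q01*q02*p01 + (-8)*d^3*q02^2*p02 + 8*d^2*t*q02*p11
  + (-8)*d^2*t*q02*p22 + 16*d^2*f1*q01*q02 + (-8)*d^2*f2*q02^2 + (-4)*d^2*q01*p12
  + (-4)*d^2*q01*x02 + 4*d^2*q02*p00 + (-8)*d^2*q02*p11 + 4*d^2*q02*p22 + (-8)*d^2*q02*x01
  + 4*d^2*q02*y02 + (-4)*d^2*q12*p01 + (-2)*d*t^2*p02 + 4*d*t*p02 + (-4)*d*t*x12 + 4*d*f0*q02
  + (-4)*d*f1*q12 + (-2)*d*p02 + 4*d*x12 + 2*d*w02 + (-2)*t^2*f2 + t*f2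

/-- A coefficient of the bracket in the frame. -/
def k12 (
    d t f0 f1 f2 q01 q02 q12 p00 p01 p02 p11 p12 p22 x00 x01 x02 x11 x12 x22 y00 y01 y02 y11
    y12 y22 w00 w01 w02 w11 w12 w22 : ℝ) : ℝ :=
  (-8)*d^7*f2^2*p12 + 4*d^5*f1*q02*p11 + (-4)*d^5*f1*q02*p22 + 4*d^5*f2*q01*p11
  + (-4)*d^5*f2*q01*p22 + (-32)*d^5*f2*q02*p12 + 2*d^4*t*f1*p02 + (-6)*d^4*t*f2*p01
  + 8*d^4*f2*p01 + (-4)*d^4*f2*x11 + 4*d^4*f2*x22 + (-4)*d^3*t*f1*f2 + 16*d^3*q01*q02*p11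
  + (-16)*d^3*q01*q02*p22 + (-32)*d^3*q02^2*p12 + (-8)*d^2*t*q02*p01 + 4*d^2*q01*p02
  + (-4)*d^2*q01*x12 + 12*d^2*q02*p01 + (-8)*d^2*q02*x11 + 8*d^2*q02*x22 + 4*d^2*q02*y12
  + (-4)*d^2*q12*p11 + 4*d^2*q12*p22 + (-2)*d*t^2*p12 + (-8)*d*t*f1*q02 + 4*d*t*p12 + 4*d*t*x02
  + (-2)*d*p12 + (-4)*d*x02 + 2*d*w12

/-- A coefficient of the bracket in the frame. -/
def k22 (
    d t f0 f1 f2 q01 q02 q12 p00 p01 p02 p11 p12 p22 x00 x01 x02 x11 x12 x22 y00 y01 y02 y11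
    y12 y22 w00 w01 w02 w11 w12 w22 : ℝ) : ℝ :=
  2*d^6*f2^2*p11 + (-2)*d^6*f2^2*p22 + 4*d^4*f1*q02*p12 + 4*d^4*f2*q01*p12 + 8*d^4*f2*q02*p11
  + (-8)*d^4*f2*q02*p22 + (-2)*d^3*t*f2*p02 + 4*d^3*f2*p02 + (-4)*d^3*f2*x12 + (-2)*d^2*t*f2^2
  + 16*d^2*q01*q02*p12 + 8*d^2*q02^2*p11 + (-8)*d^2*q02^2*p22 + (-2)*d*q01*x22 + 4*d*q02*p02
  + (-8)*d*q02*x12 + 2*d*q02*y22 + (-4)*d*q12*p12 + w22

theorem bn_eq (s0 s1 s2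
    d t f0 f1 f2 q01 q02 q12 p00 p01 p02 p11 p12 p22 x00 x01 x02 x11 x12 x22 y00 y01 y02 y11
    y12 y22 w00 w01 w02 w11 w12 w22 : ℝ) :
    bn t (2 * d * q01 + d ^ 3 * f1) (2 * d * q02 + d ^ 3 * f2) (2 * d * q12) (2 * d * q01)
      (2 * d * q02) s0 s1 s2
      (-(1 / 2) + 2 * d ^ 3 * f0 + d ^ 4 * p00) (d ^ 3 * f1 + d ^ 4 * p01)
      (d ^ 3 * f2 + d ^ 4 * p02) (d ^ 4 * p11) (d ^ 4 * p12) (d ^ 4 * p22)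
      (d ^ 4 * x00) (-(1 / 2) + d ^ 3 * f0 + d ^ 4 * x01) (d ^ 4 * x02)
      (2 * d ^ 3 * f1 + d ^ 4 * x11) (d ^ 3 * f2 + d ^ 4 * x12) (d ^ 4 * x22)
      (d ^ 4 * y00) (d ^ 4 * y01) (-(1 / 2) + d ^ 3 * f0 + d ^ 4 * y02) (d ^ 4 * y11)
      (d ^ 3 * f1 + d ^ 4 * y12) (2 * d ^ 3 * f2 + d ^ 4 * y22)
      (1 - 2 * d ^ 3 * f0 + d ^ 4 * w00) (-(d ^ 3 * f1) + d ^ 4 * w01)
      (-(d ^ 3 * f2) + d ^ 4 * w02) (-1 + d ^ 4 * w11) (d ^ 4 * w12) (d ^ 4 * w22) =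
    k00 d t f0 f1 f2 q01 q02 q12 p00 p01 p02 p11 p12 p22 x00 x01 x02 x11 x12 x22 y00 y01 y02
      y11 y12 y22 w00 w01 w02 w11 w12 w22 * s0 ^ 2
      + k11 d t f0 f1 f2 q01 q02 q12 p00 p01 p02 p11 p12 p22 x00 x01 x02 x11 x12 x22 y00 y01
        y02 y11 y12 y22 w00 w01 w02 w11 w12 w22 * s1 ^ 2
      + k01 d t f0 f1 f2 q01 q02 q12 p00 p01 p02 p11 p12 p22 x00 x01 x02 x11 x12 x22 y00 y01
        y02 y11 y12 y22 w00 w01 w02 w11 w12 w22 * (s0 * s1)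
      + k02 d t f0 f1 f2 q01 q02 q12 p00 p01 p02 p11 p12 p22 x00 x01 x02 x11 x12 x22 y00 y01
        y02 y11 y12 y22 w00 w01 w02 w11 w12 w22 * (s0 * (d ^ 3 * s2))
      + k12 d t f0 f1 f2 q01 q02 q12 p00 p01 p02 p11 p12 p22 x00 x01 x02 x11 x12 x22 y00 y01
        y02 y11 y12 y22 w00 w01 w02 w11 w12 w22 * (s1 * (d ^ 3 * s2))
      + d ^ 4 * k22 d t f0 f1 f2 q01 q02 q12 p00 p01 p02 p11 p12 p22 x00 x01 x02 x11 x12 x22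
        y00 y01 y02 y11 y12 y22 w00 w01 w02 w11 w12 w22 * s2 ^ 2 := by
  simp only [bn, evn, k00, k11, k01, k02, k12, k22]
  ring

end

end Pool.Agent.Lib.MP_6fca61_gt_W
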