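import Pool.Agent.Lib.MP_6fca61_gt_W.Def

/-!
# MP_6fca61_gt (project W): derivatives of the data along lines
-/

set_option autoImplicit false

open scoped ContDiff Topology RealInnerProductSpace

namespace Pool.Agent.Lib.MP_6fca61_gt_W

noncomputable section

/-- The derivative in a direction from the derivative along the line. -/
theorem fd_line {f : E3 → ℝ} {x Z : E3} {d : ℝ} (hf : DifferentiableAt ℝ f x)
    (h : HasDerivAt (fun t : ℝ => f (x + t • Z)) d 0) : fderiv ℝ f x Z = d := by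
  rw [← hf.lineDeriv_eq_fderiv]
  exact HasLineDerivAt.lineDeriv h

theorem cd_co (i : Fin 3) : ContDiff ℝ ∞ (fun x : E3 => x i) :=
  (EuclideanSpace.proj i : E3 →L[ℝ] ℝ).contDiff

theorem hd_co (x Z : E3) (i : Fin 3) :
    HasDerivAt (fun t : ℝ => (x + t • Z) i) (Z i) 0 := by
  have h : HasDerivAt (fun t : ℝ => x i + t * Z i) (1 * Z i) 0 :=
    ((hasDerivAt_id (0 : ℝ)).mul_const (Z i)).const_add (x i)
  simpa using h

theorem dr_dt (x Z u : E3) : HasDerivAt (fun t : ℝ => dt (x + t • Z) u) (dt Z u) 0 := by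
  have h := (((hd_co x Z 0).mul_const (u 0)).add ((hd_co x Z 1).mul_const (u 1))).add
    ((hd_co x Z 2).mul_const (u 2))
  exact h

theorem dr_vf (x Z : E3) : HasDerivAt (fun t : ℝ => vf (x + t • Z)) (vf Z) 0 := by
  have h := ((hd_co x Z 0).add (hd_co x Z 1)).add (hd_co x Z 2)
  exact h

theorem dr_qf (x Z u : E3) : HasDerivAt (fun t : ℝ => qf (x + t • Z) u) (qf Z u) 0 := by
  have h := ((hd_co x Z 0).mul_const (u 0)).sub ((hd_co x Z 2).mul_const (u 2))
  exact h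

theorem dr_qq (x Z : E3) :
    HasDerivAt (fun t : ℝ => qf (x + t • Z) (x + t • Z)) (2 * qf x Z) 0 := by
  have h := ((hd_co x Z 0).mul (hd_co x Z 0)).sub ((hd_co x Z 2).mul (hd_co x Z 2))
  refine h.congr_deriv ?_
  simp [qf]
  ring

theorem dr_rf (x Z u : E3) : HasDerivAt (fun t : ℝ => rf (x + t • Z) u) (rf Z u) 0 := by
  have h0 := hd_co x Z 0
  have h1 := hd_co x Z 1
  have h2 := hd_co x Z 2
  have h := (((((h0.mul_const (u 1)).add (h1.mul_const (u 0))).const_mul 2).sub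
    (((h0.mul_const (u 2)).add (h2.mul_const (u 0))).const_mul 4)).add
    (((h1.mul_const (u 2)).add (h2.mul_const (u 1))).const_mul 2)).add
    ((h1.mul_const (u 1)).const_mul 3)
  exact h

theorem rf_symm (u w : E3) : rf u w = rf w u := by simp only [rf]; ring
theorem qf_symm (u w : E3) : qf u w = qf w u := by simp only [qf]; ring
theorem dt_symm (u w : E3) : dt u w = dt w u := by simp only [dt]; ring

theorem dr_rr (x Z : E3) :
    HasDerivAt (fun t : ℝ => rf (x + t • Z) (x + t • Z)) (2 * rf x Z) 0 := by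
  have h0 := hd_co x Z 0
  have h1 := hd_co x Z 1
  have h2 := hd_co x Z 2
  have h := (((((h0.mul h1).add (h1.mul h0)).const_mul 2).sub
    (((h0.mul h2).add (h2.mul h0)).const_mul 4)).add
    (((h1.mul h2).add (h2.mul h1)).const_mul 2)).add
    ((h1.mul h1).const_mul 3)
  refine h.congr_deriv ?_
  simp [rf]
  ring

theorem Qv_add (x Z : E3) (t : ℝ) : Qv (x + t • Z) = Qv x + t • Qv Z := by
  ext i
  fin_cases i
  · simp [Qv]
  · simp [Qv]
  · simp [Qv]
    ring

theorem dr_rQ (x Z u : E3) :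
    HasDerivAt (fun t : ℝ => rf (Qv (x + t • Z)) u) (rf (Qv Z) u) 0 := by
  simp only [Qv_add]
  exact dr_rf _ _ _

theorem dr_qQ (x Z u : E3) :
    HasDerivAt (fun t : ℝ => qf (Qv (x + t • Z)) u) (qf (Qv Z) u) 0 := by
  simp only [Qv_add]
  exact dr_qf _ _ _

theorem dr_rQQ (x Z : E3) :
    HasDerivAt (fun t : ℝ => rf (Qv (x + t • Z)) (Qv (x + t • Z)))
      (2 * rf (Qv x) (Qv Z)) 0 := by
  simp only [Qv_add]
  exact dr_rr _ _

theorem dr_P1 (x Z u w : E3) :
    HasDerivAt (fun t : ℝ => P1 (x + t • Z) u w) (P1d x Z u w) 0 := by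
  have h := ((dr_qf x Z u).mul (dr_rf x Z w)).add ((dr_rf x Z u).mul (dr_qf x Z w))
  refine h.congr_deriv ?_
  simp only [Pi.mul_apply, Pi.add_apply, Pi.sub_apply, zero_smul, add_zero, P1d]
  ring

theorem dr_P1d (x Z u w : E3) :
    HasDerivAt (fun t : ℝ => P1d (x + t • Z) Z u w) (P1dd Z u w) 0 := by
  have h := ((((dr_rf x Z w).const_mul (qf Z u)).add ((dr_qf x Z u).mul_const (rf Z w))).add
    ((dr_qf x Z w).const_mul (rf Z u))).add ((dr_rf x Z u).mul_const (qf Z w))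
  refine h.congr_deriv ?_
  simp only [P1dd]
  ring

theorem dr_P0 (x Z u w : E3) :
    HasDerivAt (fun t : ℝ => P0 (x + t • Z) u w) (P0d x Z u w) 0 := by
  have hqu := dr_qf x Z u
  have hqw := dr_qf x Z w
  have hru := dr_rf x Z u
  have hrw := dr_rf x Z w
  have h := ((((dr_rr x Z).mul (hqu.mul hqw)).add
    (((dr_qq x Z).const_mul (1 / 2)).mul ((hqu.mul hrw).add (hru.mul hqw)))).sub
    (((hqu.mul (dr_rQ x Z w)).add ((dr_rQ x Z u).mul hqw)).const_mul (25 / 8))).add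
    (((hru.mul (dr_qQ x Z w)).add ((dr_qQ x Z u).mul hrw)).const_mul (13 / 4))
  have h' := h.add (((dr_rQQ x Z).const_mul (21 / 4)).mul_const (dt u w))
  refine h'.congr_deriv ?_
  simp only [Pi.mul_apply, Pi.add_apply, Pi.sub_apply, zero_smul, add_zero, P0d, P1d]
  ring

theorem dr_P0d (x Z u w : E3) :
    HasDerivAt (fun t : ℝ => P0d (x + t • Z) Z u w) (P0dd x Z u w) 0 := by
  have hqu := dr_qf x Z u
  have hqw := dr_qf x Z w
  have hru := dr_rf x Z u
  have hrw := dr_rf x Z w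
  have h1 := (((dr_rf x Z Z).const_mul 2).mul (hqu.mul hqw)).add
    ((dr_rr x Z).mul ((hqw.const_mul (qf Z u)).add (hqu.mul_const (qf Z w))))
  have h2 := (dr_qf x Z Z).mul ((hqu.mul hrw).add (hru.mul hqw))
  have h3 := ((dr_qq x Z).const_mul (1 / 2)).mul (dr_P1d x Z u w)
  have h4 := ((((((dr_rQ x Z w).const_mul (qf Z u)).add (hqu.mul_const (rf (Qv Z) w))).add
    (hqw.const_mul (rf (Qv Z) u))).add ((dr_rQ x Z u).mul_const (qf Z w)))).const_mul (25 / 8)
  have h5 := ((((((dr_qQ x Z w).const_mul (rf Z u)).add (hru.mul_const (qf (Qv Z) w))).add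
    (hrw.const_mul (qf (Qv Z) u))).add ((dr_qQ x Z u).mul_const (rf Z w)))).const_mul (13 / 4)
  have h6 := ((dr_rQ x Z (Qv Z)).const_mul (21 / 2)).mul_const (dt u w)
  have h := ((((h1.add h2).add h3).sub h4).add h5).add h6
  refine h.congr_deriv ?_
  simp only [Pi.mul_apply, Pi.add_apply, Pi.sub_apply, zero_smul, add_zero, P0dd, P1d, P1dd]
  ring

theorem dr_Sf (δ σ : ℝ) (x Z u w : E3) :
    HasDerivAt (fun t : ℝ => Sf δ σ (x + t • Z) u w) (Sd δ σ x Z u w) 0 := by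
  have h := ((((dr_dt x Z u).mul (dr_dt x Z w)).const_mul (-(1 / 2) : ℝ)).add
    ((((dr_dt x Z u).mul_const (vf w)).add ((dr_dt x Z w).const_mul (vf u))).const_mul
      (δ ^ 3 * σ))).add
    ((((hasDerivAt_const (0 : ℝ) (rf u w)).add ((dr_P1 x Z u w).const_mul δ)).add
      ((dr_P0 x Z u w).const_mul (δ ^ 2))).const_mul (δ ^ 4))
  refine h.congr_deriv ?_
  simp only [Pi.mul_apply, Pi.add_apply, Pi.sub_apply, zero_smul, add_zero, Sd]
  ring

theorem dr_Sd (δ σ : ℝ) (x Z u w : E3) :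
    HasDerivAt (fun t : ℝ => Sd δ σ (x + t • Z) Z u w) (Sdd δ x Z u w) 0 := by
  have h := ((((dr_dt x Z w).const_mul (dt Z u)).add
    ((dr_dt x Z u).mul_const (dt Z w))).const_mul (-(1 / 2) : ℝ)).add
    ((((dr_P1d x Z u w).const_mul δ).add ((dr_P0d x Z u w).const_mul (δ ^ 2))).const_mul (δ ^ 4))
  have h' := h.add_const (δ ^ 3 * σ * (dt Z u * vf w + vf u * dt Z w))
  have he : (fun t : ℝ => Sd δ σ (x + t • Z) Z u w) = fun t =>
      -(1 / 2) * (dt Z u * dt (x + t • Z) w + dt (x + t • Z) u * dt Z w) +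
        δ ^ 4 * (δ * P1d (x + t • Z) Z u w + δ ^ 2 * P0d (x + t • Z) Z u w) +
        δ ^ 3 * σ * (dt Z u * vf w + vf u * dt Z w) := by
    funext t
    simp only [Sd]
    ring
  rw [he]
  refine h'.congr_deriv ?_
  simp only [Sdd]
  ring

theorem dr_psi (δ : ℝ) (x Z : E3) :
    HasDerivAt (fun t : ℝ => psi δ (x + t • Z)) (2 * δ * qf x Z) 0 := by
  refine ((dr_qq x Z).const_mul δ).congr_deriv ?_
  ring

theorem dr_hh (δ σ : ℝ) (x Z : E3) :
    HasDerivAt (fun t : ℝ => hh δ σ (x + t • Z)) (hd δ σ x Z) 0 := by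
  refine (((dr_qq x Z).const_mul δ).add ((dr_vf x Z).const_mul (δ ^ 3 * σ))).congr_deriv ?_
  simp only [hd]
  ring

theorem dr_be (δ σ : ℝ) (x Z : E3) :
    HasDerivAt (fun t : ℝ => be δ σ (x + t • Z)) (be δ σ x * hd δ σ x Z) 0 := by
  refine ((dr_hh δ σ x Z).exp.div_const 2).congr_deriv ?_
  simp only [Pi.mul_apply, Pi.add_apply, Pi.sub_apply, zero_smul, add_zero, be]
  ring

theorem dr_Wf (δ σ : ℝ) (x Z : E3) :
    HasDerivAt (fun t : ℝ => Wf δ σ (x + t • Z)) (Wd δ σ x Z) 0 := by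
  have h := (((((dr_be δ σ x Z).pow 2).sub_const 1).sub ((dr_psi δ x Z).const_mul 6))).sub
    ((dr_vf x Z).const_mul (2 * δ ^ 3 * σ))
  refine h.congr_deriv ?_
  simp only [Pi.mul_apply, Pi.add_apply, Pi.sub_apply, zero_smul, add_zero, Wd]
  ring

theorem cd_dt (u : E3) : ContDiff ℝ ∞ (fun x => dt x u) :=
  (((cd_co 0).mul contDiff_const).add ((cd_co 1).mul contDiff_const)).add
    ((cd_co 2).mul contDiff_const)

theorem cd_vf : ContDiff ℝ ∞ vf := ((cd_co 0).add (cd_co 1)).add (cd_co 2)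

theorem cd_qf {f g : E3 → E3} (hf : ContDiff ℝ ∞ f) (hg : ContDiff ℝ ∞ g) :
    ContDiff ℝ ∞ (fun x => qf (f x) (g x)) :=
  (((cd_co 0).comp hf).mul ((cd_co 0).comp hg)).sub (((cd_co 2).comp hf).mul ((cd_co 2).comp hg))

theorem cd_rf {f g : E3 → E3} (hf : ContDiff ℝ ∞ f) (hg : ContDiff ℝ ∞ g) :
    ContDiff ℝ ∞ (fun x => rf (f x) (g x)) := by
  have f0 := (cd_co 0).comp hf
  have f1 := (cd_co 1).comp hf
  have f2 := (cd_co 2).comp hf
  have g0 := (cd_co 0).comp hg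
  have g1 := (cd_co 1).comp hg
  have g2 := (cd_co 2).comp hg
  exact ((((contDiff_const (c := (2 : ℝ))).mul ((f0.mul g1).add (f1.mul g0))).sub
    ((contDiff_const (c := (4 : ℝ))).mul ((f0.mul g2).add (f2.mul g0)))).add
    ((contDiff_const (c := (2 : ℝ))).mul ((f1.mul g2).add (f2.mul g1)))).add
    ((contDiff_const (c := (3 : ℝ))).mul (f1.mul g1))

theorem cd_Qv : ContDiff ℝ ∞ Qv := by
  rw [contDiff_euclidean]
  intro i
  fin_cases i
  · exact cd_co 0
  · exact contDiff_const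
  · exact (cd_co 2).neg

theorem cd_P1 (u w : E3) : ContDiff ℝ ∞ (fun x => P1 x u w) :=
  ((cd_qf contDiff_id contDiff_const).mul (cd_rf contDiff_id contDiff_const)).add
    ((cd_rf contDiff_id contDiff_const).mul (cd_qf contDiff_id contDiff_const))

theorem cd_P0 (u w : E3) : ContDiff ℝ ∞ (fun x => P0 x u w) := by
  have qu := cd_qf (contDiff_id (𝕜 := ℝ) (E := E3) (n := ∞)) (contDiff_const (c := u))
  have qw := cd_qf (contDiff_id (𝕜 := ℝ) (E := E3) (n := ∞)) (contDiff_const (c := w))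
  have ru := cd_rf (contDiff_id (𝕜 := ℝ) (E := E3) (n := ∞)) (contDiff_const (c := u))
  have rw' := cd_rf (contDiff_id (𝕜 := ℝ) (E := E3) (n := ∞)) (contDiff_const (c := w))
  have Qqu := cd_qf cd_Qv (contDiff_const (c := u))
  have Qqw := cd_qf cd_Qv (contDiff_const (c := w))
  have Qru := cd_rf cd_Qv (contDiff_const (c := u))
  have Qrw := cd_rf cd_Qv (contDiff_const (c := w))
  have rr := cd_rf (contDiff_id (𝕜 := ℝ) (E := E3) (n := ∞)) contDiff_id
  have qq := cd_qf (contDiff_id (𝕜 := ℝ) (E := E3) (n := ∞)) contDiff_id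
  have QQ := cd_rf cd_Qv cd_Qv
  exact ((((rr.mul (qu.mul qw)).add (((contDiff_const (c := (1 / 2 : ℝ))).mul qq).mul
    ((qu.mul rw').add (ru.mul qw)))).sub ((contDiff_const (c := (25 / 8 : ℝ))).mul
    ((qu.mul Qrw).add (Qru.mul qw)))).add ((contDiff_const (c := (13 / 4 : ℝ))).mul
    ((ru.mul Qqw).add (Qqu.mul rw')))).add
    (((contDiff_const (c := (21 / 4 : ℝ))).mul QQ).mul contDiff_const)

theorem cd_Sf (δ σ : ℝ) (u w : E3) : ContDiff ℝ ∞ (fun x => Sf δ σ x u w) :=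
  (((contDiff_const).mul ((cd_dt u).mul (cd_dt w))).add (contDiff_const.mul
    (((cd_dt u).mul contDiff_const).add (contDiff_const.mul (cd_dt w))))).add
    (contDiff_const.mul ((contDiff_const.add (contDiff_const.mul (cd_P1 u w))).add
      (contDiff_const.mul (cd_P0 u w))))

theorem cd_psi (δ : ℝ) : ContDiff ℝ ∞ (psi δ) :=
  contDiff_const.mul (cd_qf contDiff_id contDiff_id)

theorem cd_hh (δ σ : ℝ) : ContDiff ℝ ∞ (hh δ σ) :=
  (contDiff_const.mul (cd_qf contDiff_id contDiff_id)).add (contDiff_const.mul cd_vf)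

theorem cd_be (δ σ : ℝ) : ContDiff ℝ ∞ (be δ σ) := (cd_hh δ σ).exp.div_const 2

theorem cd_Wf (δ σ : ℝ) : ContDiff ℝ ∞ (Wf δ σ) :=
  (((((cd_be δ σ).pow 2).sub contDiff_const).sub (contDiff_const.mul (cd_psi δ)))).sub
    (contDiff_const.mul cd_vf)

end

end Pool.Agent.Lib.MP_6fca61_gt_W
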