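import Pool.Agent.Lib.MP_6fca61_gt_W.SigPos
import Pool.Agent.Lib.MP_6fca61_gt_W.Lin
import Pool.Agent.Lib.MP_6fca61_gt_PC.Sig

/-!
# MP_6fca61_gt (project W): the data satisfy the inequality (SIGMA)
-/

set_option autoImplicit false

open scoped ContDiff Topology RealInnerProductSpace

namespace Pool.Agent.Lib.MP_6fca61_gt_W

open Pool.Agent.MP6fca61

noncomputable section

theorem inner_dt (u w : E3) : ⟪u, w⟫ = dt u w := by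
  rw [PiLp.inner_apply, Fin.sum_univ_three]
  simp only [dt, RCLike.inner_apply, conj_trivial]
  ring

theorem pcr (u w : E3) : PC.cr u w = cr u w := rfl

/-- The connection form as a linear map. -/
def aL (δ σ : ℝ) (x : E3) : E3 →L[ℝ] E3 :=
  LinearMap.toContinuousLinearMap
    { toFun := af δ σ x
      map_add' := fun u w => by
        ext i
        fin_cases i <;> simp [af, cr, hd, qf, vf] <;> ring
      map_smul' := fun c u => by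
        ext i
        fin_cases i <;> simp [af, cr, hd, qf, vf] <;> ring }

theorem aL_apply (δ σ : ℝ) (x u : E3) : aL δ σ x u = af δ σ x u := rfl

/-- The standard basis. -/
def eb (i : Fin 3) : E3 :=
  !₂[if i = 0 then 1 else 0, if i = 1 then 1 else 0, if i = 2 then 1 else 0]

/-- The form `S` as a linear map. -/
def SL (δ σ : ℝ) (x : E3) : E3 →L[ℝ] E3 :=
  LinearMap.toContinuousLinearMap
    { toFun := fun u => !₂[Sf δ σ x u (eb 0), Sf δ σ x u (eb 1), Sf δ σ x u (eb 2)]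
      map_add' := fun u w => by
        ext i
        fin_cases i <;> simp [Sf, P1, P0, rf, qf, vf, dt, Qv] <;> ring
      map_smul' := fun c u => by
        ext i
        fin_cases i <;> simp [Sf, P1, P0, rf, qf, vf, dt, Qv] <;> ring }

theorem SL_inner (δ σ : ℝ) (x u w : E3) : ⟪SL δ σ x u, w⟫ = Sf δ σ x u w := by
  rw [inner_dt]
  have h : SL δ σ x u = !₂[Sf δ σ x u (eb 0), Sf δ σ x u (eb 1), Sf δ σ x u (eb 2)] := rfl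
  rw [h]
  simp [Sf, P1, P0, rf, qf, vf, dt, Qv, eb]
  ring

/-- The curvature. -/
def Om (δ σ : ℝ) (x : E3) : E3 := (Real.exp (-(2 * psi δ x)) * Wf δ σ x) • x

theorem cd_E3 {f : E3 → E3} (h : ∀ i, ContDiff ℝ ∞ fun x => f x i) : ContDiff ℝ ∞ f :=
  contDiff_euclidean.2 h

theorem cd_hd {f g : E3 → E3} (δ σ : ℝ) (hf : ContDiff ℝ ∞ f) (hg : ContDiff ℝ ∞ g) :
    ContDiff ℝ ∞ fun x => hd δ σ (f x) (g x) :=
  (contDiff_const.mul (cd_qf hf hg)).add (contDiff_const.mul (cd_vf.comp hg))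

theorem cd_cr {f g : E3 → E3} (hf : ContDiff ℝ ∞ f) (hg : ContDiff ℝ ∞ g) :
    ContDiff ℝ ∞ fun x => cr (f x) (g x) := by
  have h : ContDiff ℝ ∞ fun x => PC.cr (f x) (g x) := (PC.cr.contDiff.comp hf).clm_apply hg
  exact h

theorem cd_af (δ σ : ℝ) (u : E3) : ContDiff ℝ ∞ fun x => af δ σ x u :=
  (((cd_be δ σ).sub contDiff_const).smul (cd_cr contDiff_id contDiff_const)).sub
    ((cd_hd δ σ contDiff_id (cd_cr contDiff_id contDiff_const)).smul contDiff_id)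

theorem cd_aL (δ σ : ℝ) : ContDiff ℝ ∞ (aL δ σ) := contDiff_clm_apply_iff.2 (cd_af δ σ)

theorem cd_SL (δ σ : ℝ) : ContDiff ℝ ∞ (SL δ σ) := by
  refine contDiff_clm_apply_iff.2 fun u => cd_E3 fun i => ?_
  fin_cases i
  · exact cd_Sf δ σ u (eb 0)
  · exact cd_Sf δ σ u (eb 1)
  · exact cd_Sf δ σ u (eb 2)

theorem cd_Om (δ σ : ℝ) : ContDiff ℝ ∞ (Om δ σ) :=
  (((contDiff_const.mul (cd_psi δ)).neg.exp).mul (cd_Wf δ σ)).smul contDiff_id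

/-- Scalar products with a fixed vector commute with derivatives. -/
theorem fd_inner {f : E3 → E3} {x : E3} (hf : DifferentiableAt ℝ f x) (Z w : E3) :
    ⟪fderiv ℝ f x Z, w⟫ = fderiv ℝ (fun y => ⟪f y, w⟫) x Z := by
  rw [(hf.hasFDerivAt.inner ℝ (hasFDerivAt_const w x)).fderiv]
  simp

theorem fd_app {f : E3 → E3 →L[ℝ] E3} {x : E3} (hf : DifferentiableAt ℝ f x) (Z w : E3) :
    fderiv ℝ f x Z w = fderiv ℝ (fun y => f y w) x Z := by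
  rw [(hf.hasFDerivAt.clm_apply (hasFDerivAt_const w x)).fderiv]
  simp

theorem dS (δ σ : ℝ) (x Z u w : E3) : ⟪fderiv ℝ (SL δ σ) x Z u, w⟫ = Sd δ σ x Z u w := by
  have h1 : Differentiable ℝ (SL δ σ) := (cd_SL δ σ).differentiable (by simp)
  have h2 : DifferentiableAt ℝ (fun y => SL δ σ y u) x :=
    (h1 x).clm_apply (differentiableAt_const u)
  rw [fd_app (h1 x), fd_inner h2]
  simp only [SL_inner]
  exact fd_line ((cd_Sf δ σ u w).differentiable (by simp) x) (dr_Sf δ σ x Z u w)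

theorem ddS (δ σ : ℝ) (x Z u w : E3) :
    ⟪fderiv ℝ (fderiv ℝ (SL δ σ)) x Z Z u, w⟫ = Sdd δ x Z u w := by
  have h0 : ContDiff ℝ ∞ (fderiv ℝ (SL δ σ)) := (cd_SL δ σ).fderiv_right (by simp)
  have h1 : Differentiable ℝ (fderiv ℝ (SL δ σ)) := h0.differentiable (by simp)
  have h2 : DifferentiableAt ℝ (fun y => fderiv ℝ (SL δ σ) y Z) x :=
    (h1 x).clm_apply (differentiableAt_const Z)
  have h3 : fderiv ℝ (fderiv ℝ (SL δ σ)) x Z Z =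
      fderiv ℝ (fun y => fderiv ℝ (SL δ σ) y Z) x Z := by
    rw [((h1 x).hasFDerivAt.clm_apply (hasFDerivAt_const Z x)).fderiv]
    simp
  have h4 : DifferentiableAt ℝ (fun y => fderiv ℝ (SL δ σ) y Z u) x :=
    h2.clm_apply (differentiableAt_const u)
  rw [h3, fd_app h2, fd_inner h4]
  have h5 : (fun y => ⟪fderiv ℝ (SL δ σ) y Z u, w⟫) = fun y => Sd δ σ y Z u w :=
    funext fun y => dS δ σ y Z u w
  rw [h5]
  refine fd_line ?_ (dr_Sd δ σ x Z u w)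
  rw [← h5]
  exact h4.inner ℝ (differentiableAt_const w)

theorem dpsi (δ : ℝ) (x Z : E3) : fderiv ℝ (psi δ) x Z = 2 * δ * qf x Z :=
  fd_line ((cd_psi δ).differentiable (by simp) x) (dr_psi δ x Z)

theorem ddpsi (δ : ℝ) (x Z : E3) : fderiv ℝ (fderiv ℝ (psi δ)) x Z Z = 2 * δ * qf Z Z := by
  have h0 : ContDiff ℝ ∞ (fderiv ℝ (psi δ)) := (cd_psi δ).fderiv_right (by simp)
  have h1 : Differentiable ℝ (fderiv ℝ (psi δ)) := h0.differentiable (by simp)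
  have h3 : fderiv ℝ (fderiv ℝ (psi δ)) x Z Z =
      fderiv ℝ (fun y => fderiv ℝ (psi δ) y Z) x Z := by
    rw [((h1 x).hasFDerivAt.clm_apply (hasFDerivAt_const Z x)).fderiv]
    simp
  rw [h3]
  simp only [dpsi]
  refine fd_line ?_ ((dr_qf x Z Z).const_mul (2 * δ))
  exact (contDiff_const.mul (cd_qf contDiff_id contDiff_const)).differentiable
    (n := ∞) (by simp) x

/-- The derivative of a vector valued function along a line. -/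
theorem fd_vec {f : E3 → E3} {x Z d : E3} (hf : DifferentiableAt ℝ f x)
    (h : HasDerivAt (fun t : ℝ => f (x + t • Z)) d 0) : fderiv ℝ f x Z = d := by
  rw [← hf.lineDeriv_eq_fderiv]
  exact HasLineDerivAt.lineDeriv h

theorem dr_id (x Z : E3) : HasDerivAt (fun t : ℝ => x + t • Z) Z 0 := by
  simpa using ((hasDerivAt_id (0 : ℝ)).smul_const Z).const_add x

theorem dr_cr (x Z u : E3) : HasDerivAt (fun t : ℝ => cr (x + t • Z) u) (cr Z u) 0 := by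
  have h := (PC.cr.flip u).hasFDerivAt.comp_hasDerivAt (0 : ℝ) (dr_id x Z)
  exact h

theorem dr_hdc (δ σ : ℝ) (x Z u : E3) :
    HasDerivAt (fun t : ℝ => hd δ σ (x + t • Z) (cr (x + t • Z) u))
      (2 * δ * (qf Z (cr x u) + qf x (cr Z u)) + δ ^ 3 * σ * vf (cr Z u)) 0 := by
  have h0 := hd_co x Z 0
  have h2 := hd_co x Z 2
  have hc : ∀ i : Fin 3, HasDerivAt (fun t : ℝ => cr (x + t • Z) u i) (cr Z u i) 0 := by
    intro i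
    exact (EuclideanSpace.proj i : E3 →L[ℝ] ℝ).hasFDerivAt.comp_hasDerivAt (0 : ℝ) (dr_cr x Z u)
  have h := (((h0.mul (hc 0)).sub (h2.mul (hc 2))).const_mul (2 * δ)).add
    ((((hc 0).add (hc 1)).add (hc 2)).const_mul (δ ^ 3 * σ))
  refine h.congr_deriv ?_
  simp only [zero_smul, add_zero, qf, vf]
  ring

theorem dr_af (δ σ : ℝ) (x Z u : E3) :
    HasDerivAt (fun t : ℝ => af δ σ (x + t • Z) u)
      ((be δ σ x - 1) • cr Z u + (be δ σ x * hd δ σ x Z) • cr x u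
        - (hd δ σ x (cr x u) • Z
          + (2 * δ * (qf Z (cr x u) + qf x (cr Z u)) + δ ^ 3 * σ * vf (cr Z u)) • x)) 0 := by
  have h := (((dr_be δ σ x Z).sub_const 1).smul (dr_cr x Z u)).sub
    ((dr_hdc δ σ x Z u).smul (dr_id x Z))
  refine h.congr_deriv ?_
  simp only [zero_smul, add_zero]

theorem da (δ σ : ℝ) (x Z u : E3) : fderiv ℝ (aL δ σ) x Z u =
    (be δ σ x - 1) • cr Z u + (be δ σ x * hd δ σ x Z) • cr x u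
        - (hd δ σ x (cr x u) • Z
          + (2 * δ * (qf Z (cr x u) + qf x (cr Z u)) + δ ^ 3 * σ * vf (cr Z u)) • x) := by
  rw [fd_app ((cd_aL δ σ).differentiable (by simp) x)]
  exact fd_vec ((cd_af δ σ u).differentiable (by simp) x) (dr_af δ σ x Z u)

theorem dOm (δ σ : ℝ) (x Z : E3) : fderiv ℝ (Om δ σ) x Z =
    (Real.exp (-(2 * psi δ x)) * Wf δ σ x) • Z +
      (Real.exp (-(2 * psi δ x)) * (Wd δ σ x Z - 2 * (2 * δ * qf x Z) * Wf δ σ x)) • x := by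
  refine fd_vec ((cd_Om δ σ).differentiable (by simp) x) ?_
  have h := ((((dr_psi δ x Z).const_mul 2).neg.exp).mul (dr_Wf δ σ x Z)).smul (dr_id x Z)
  refine h.congr_deriv ?_
  simp only [Pi.mul_apply, Pi.neg_apply, zero_smul, add_zero]
  congr 2
  ring

theorem a_x (δ σ : ℝ) (x : E3) : aL δ σ x x = 0 := by
  rw [aL_apply]
  ext i
  fin_cases i <;> simp [af, cr, hd, qf, vf] <;> ring

/-- The curvature of the connection. -/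
theorem curvature (δ σ : ℝ) (x ξ η : E3) (hn : dt x x = 1) (hp : dt x ξ = 0)
    (hq : dt x η = 0) : fderiv ℝ (aL δ σ) x ξ η - fderiv ℝ (aL δ σ) x η ξ +
      cr (aL δ σ x ξ) (aL δ σ x η) =
      (Real.exp (2 * psi δ x) * dt x (cr ξ η)) • Om δ σ x := by
  have he : Real.exp (2 * psi δ x) * Real.exp (-(2 * psi δ x)) = 1 := by
    rw [← Real.exp_add, add_neg_cancel, Real.exp_zero]
  have hO : (Real.exp (2 * psi δ x) * dt x (cr ξ η)) • Om δ σ x =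
      (dt x (cr ξ η) * Wf δ σ x) • x := by
    rw [Om, smul_smul]
    congr 1
    linear_combination (dt x (cr ξ η) * Wf δ σ x) * he
  rw [hO, da, da, aL_apply, aL_apply]
  simp only [af, Wf, psi]
  generalize be δ σ x = b
  have key : ∀ i : Fin 3, ((b - 1) • cr ξ η + (b * hd δ σ x ξ) • cr x η
        - (hd δ σ x (cr x η) • ξ
          + (2 * δ * (qf ξ (cr x η) + qf x (cr ξ η)) + δ ^ 3 * σ * vf (cr ξ η)) • x) -
      ((b - 1) • cr η ξ + (b * hd δ σ x η) • cr x ξ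
        - (hd δ σ x (cr x ξ) • η
          + (2 * δ * (qf η (cr x ξ) + qf x (cr η ξ)) + δ ^ 3 * σ * vf (cr η ξ)) • x)) +
      cr ((b - 1) • cr x ξ - hd δ σ x (cr x ξ) • x) ((b - 1) • cr x η - hd δ σ x (cr x η) • x)) i =
      ((dt x (cr ξ η) * (b ^ 2 - 1 - 6 * (δ * qf x x) - 2 * δ ^ 3 * σ * vf x)) • x) i := by
    intro i
    simp only [dt] at hn hp hq
    fin_cases i
    · simp [hd, cr, qf, vf, dt]
      linear_combination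
        (-2 * (b - 1) * (ξ 1 * η 2 - ξ 2 * η 1) + (b - 1) * (-(2 * δ * (x 0 * (x 1 * η 2 - x 2 * η
        1) - x 2 * (x 0 * η 1 - x 1 * η 0)) + δ ^ 3 * σ * ((x 1 * η 2 - x 2 * η 1) + (x 2 * η 0 -
        x 0 * η 2) + (x 0 * η 1 - x 1 * η 0))) * ξ 0 + (2 * δ * (x 0 * (x 1 * ξ 2 - x 2 * ξ 1) - x
        2 * (x 0 * ξ 1 - x 1 * ξ 0)) + δ ^ 3 * σ * ((x 1 * ξ 2 - x 2 * ξ 1) + (x 2 * ξ 0 - x 0 * ξ
        2) + (x 0 * ξ 1 - x 1 * ξ 0))) * η 0) + (2 * δ * (x 0 * (ξ 1 * η 2 - ξ 2 * η 1) - x 2 * (ξ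
        0 * η 1 - ξ 1 * η 0)) + 2 * (2 * δ * (x 0 * (ξ 1 * η 2 - ξ 2 * η 1) - x 2 * (ξ 0 * η 1 - ξ
        1 * η 0)) + δ ^ 3 * σ * ((ξ 1 * η 2 - ξ 2 * η 1) + (ξ 2 * η 0 - ξ 0 * η 2) + (ξ 0 * η 1 -
        ξ 1 * η 0)))) * x 0) * hn + (2 * (b - 1) * (x 1 * η 2 - x 2 * η 1) + b * ((δ ^ 3 * σ) * η
        2 - (-2 * δ * x 2 + δ ^ 3 * σ) * η 1) + (b - 1) * (2 * δ * (x 0 * (x 1 * η 2 - x 2 * η 1)
        - x 2 * (x 0 * η 1 - x 1 * η 0)) + δ ^ 3 * σ * ((x 1 * η 2 - x 2 * η 1) + (x 2 * η 0 - x 0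
        * η 2) + (x 0 * η 1 - x 1 * η 0))) * x 0 - (2 * δ * (x 0 * (x 1 * η 2 - x 2 * η 1) - x 2 *
        (x 0 * η 1 - x 1 * η 0)) + 2 * (2 * δ * (x 0 * (x 1 * η 2 - x 2 * η 1) - x 2 * (x 0 * η 1
        - x 1 * η 0)) + δ ^ 3 * σ * ((x 1 * η 2 - x 2 * η 1) + (x 2 * η 0 - x 0 * η 2) + (x 0 * η
        1 - x 1 * η 0)))) * x 0) * hp + (-2 * (b - 1) * (x 1 * ξ 2 - x 2 * ξ 1) - b * ((δ ^ 3 * σ)
        * ξ 2 - (-2 * δ * x 2 + δ ^ 3 * σ) * ξ 1) - (b - 1) * (2 * δ * (x 0 * (x 1 * ξ 2 - x 2 * ξ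
        1) - x 2 * (x 0 * ξ 1 - x 1 * ξ 0)) + δ ^ 3 * σ * ((x 1 * ξ 2 - x 2 * ξ 1) + (x 2 * ξ 0 -
        x 0 * ξ 2) + (x 0 * ξ 1 - x 1 * ξ 0))) * x 0 + (2 * δ * (x 0 * (x 1 * ξ 2 - x 2 * ξ 1) - x
        2 * (x 0 * ξ 1 - x 1 * ξ 0)) + 2 * (2 * δ * (x 0 * (x 1 * ξ 2 - x 2 * ξ 1) - x 2 * (x 0 *
        ξ 1 - x 1 * ξ 0)) + δ ^ 3 * σ * ((x 1 * ξ 2 - x 2 * ξ 1) + (x 2 * ξ 0 - x 0 * ξ 2) + (x 0
        * ξ 1 - x 1 * ξ 0)))) * x 0) * hq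
    · simp [hd, cr, qf, vf, dt]
      linear_combination
        (-2 * (b - 1) * (ξ 2 * η 0 - ξ 0 * η 2) + (b - 1) * (-(2 * δ * (x 0 * (x 1 * η 2 - x 2 * η
        1) - x 2 * (x 0 * η 1 - x 1 * η 0)) + δ ^ 3 * σ * ((x 1 * η 2 - x 2 * η 1) + (x 2 * η 0 -
        x 0 * η 2) + (x 0 * η 1 - x 1 * η 0))) * ξ 1 + (2 * δ * (x 0 * (x 1 * ξ 2 - x 2 * ξ 1) - x
        2 * (x 0 * ξ 1 - x 1 * ξ 0)) + δ ^ 3 * σ * ((x 1 * ξ 2 - x 2 * ξ 1) + (x 2 * ξ 0 - x 0 * ξ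
        2) + (x 0 * ξ 1 - x 1 * ξ 0))) * η 1) + (2 * δ * (x 0 * (ξ 1 * η 2 - ξ 2 * η 1) - x 2 * (ξ
        0 * η 1 - ξ 1 * η 0)) + 2 * (2 * δ * (x 0 * (ξ 1 * η 2 - ξ 2 * η 1) - x 2 * (ξ 0 * η 1 - ξ
        1 * η 0)) + δ ^ 3 * σ * ((ξ 1 * η 2 - ξ 2 * η 1) + (ξ 2 * η 0 - ξ 0 * η 2) + (ξ 0 * η 1 -
        ξ 1 * η 0)))) * x 1) * hn + (2 * (b - 1) * (x 2 * η 0 - x 0 * η 2) + b * ((-2 * δ * x 2 +
        δ ^ 3 * σ) * η 0 - (2 * δ * x 0 + δ ^ 3 * σ) * η 2) + (b - 1) * (2 * δ * (x 0 * (x 1 * η 2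
        - x 2 * η 1) - x 2 * (x 0 * η 1 - x 1 * η 0)) + δ ^ 3 * σ * ((x 1 * η 2 - x 2 * η 1) + (x
        2 * η 0 - x 0 * η 2) + (x 0 * η 1 - x 1 * η 0))) * x 1 - (2 * δ * (x 0 * (x 1 * η 2 - x 2
        * η 1) - x 2 * (x 0 * η 1 - x 1 * η 0)) + 2 * (2 * δ * (x 0 * (x 1 * η 2 - x 2 * η 1) - x
        2 * (x 0 * η 1 - x 1 * η 0)) + δ ^ 3 * σ * ((x 1 * η 2 - x 2 * η 1) + (x 2 * η 0 - x 0 * η
        2) + (x 0 * η 1 - x 1 * η 0)))) * x 1) * hp + (-2 * (b - 1) * (x 2 * ξ 0 - x 0 * ξ 2) - b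
        * ((-2 * δ * x 2 + δ ^ 3 * σ) * ξ 0 - (2 * δ * x 0 + δ ^ 3 * σ) * ξ 2) - (b - 1) * (2 * δ
        * (x 0 * (x 1 * ξ 2 - x 2 * ξ 1) - x 2 * (x 0 * ξ 1 - x 1 * ξ 0)) + δ ^ 3 * σ * ((x 1 * ξ
        2 - x 2 * ξ 1) + (x 2 * ξ 0 - x 0 * ξ 2) + (x 0 * ξ 1 - x 1 * ξ 0))) * x 1 + (2 * δ * (x 0
        * (x 1 * ξ 2 - x 2 * ξ 1) - x 2 * (x 0 * ξ 1 - x 1 * ξ 0)) + 2 * (2 * δ * (x 0 * (x 1 * ξ
        2 - x 2 * ξ 1) - x 2 * (x 0 * ξ 1 - x 1 * ξ 0)) + δ ^ 3 * σ * ((x 1 * ξ 2 - x 2 * ξ 1) +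
        (x 2 * ξ 0 - x 0 * ξ 2) + (x 0 * ξ 1 - x 1 * ξ 0)))) * x 1) * hq
    · simp [hd, cr, qf, vf, dt]
      linear_combination
        (-2 * (b - 1) * (ξ 0 * η 1 - ξ 1 * η 0) + (b - 1) * (-(2 * δ * (x 0 * (x 1 * η 2 - x 2 * η
        1) - x 2 * (x 0 * η 1 - x 1 * η 0)) + δ ^ 3 * σ * ((x 1 * η 2 - x 2 * η 1) + (x 2 * η 0 -
        x 0 * η 2) + (x 0 * η 1 - x 1 * η 0))) * ξ 2 + (2 * δ * (x 0 * (x 1 * ξ 2 - x 2 * ξ 1) - x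
        2 * (x 0 * ξ 1 - x 1 * ξ 0)) + δ ^ 3 * σ * ((x 1 * ξ 2 - x 2 * ξ 1) + (x 2 * ξ 0 - x 0 * ξ
        2) + (x 0 * ξ 1 - x 1 * ξ 0))) * η 2) + (2 * δ * (x 0 * (ξ 1 * η 2 - ξ 2 * η 1) - x 2 * (ξ
        0 * η 1 - ξ 1 * η 0)) + 2 * (2 * δ * (x 0 * (ξ 1 * η 2 - ξ 2 * η 1) - x 2 * (ξ 0 * η 1 - ξ
        1 * η 0)) + δ ^ 3 * σ * ((ξ 1 * η 2 - ξ 2 * η 1) + (ξ 2 * η 0 - ξ 0 * η 2) + (ξ 0 * η 1 -
        ξ 1 * η 0)))) * x 2) * hn + (2 * (b - 1) * (x 0 * η 1 - x 1 * η 0) + b * ((2 * δ * x 0 + δ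
        ^ 3 * σ) * η 1 - (δ ^ 3 * σ) * η 0) + (b - 1) * (2 * δ * (x 0 * (x 1 * η 2 - x 2 * η 1) -
        x 2 * (x 0 * η 1 - x 1 * η 0)) + δ ^ 3 * σ * ((x 1 * η 2 - x 2 * η 1) + (x 2 * η 0 - x 0 *
        η 2) + (x 0 * η 1 - x 1 * η 0))) * x 2 - (2 * δ * (x 0 * (x 1 * η 2 - x 2 * η 1) - x 2 *
        (x 0 * η 1 - x 1 * η 0)) + 2 * (2 * δ * (x 0 * (x 1 * η 2 - x 2 * η 1) - x 2 * (x 0 * η 1
        - x 1 * η 0)) + δ ^ 3 * σ * ((x 1 * η 2 - x 2 * η 1) + (x 2 * η 0 - x 0 * η 2) + (x 0 * η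
        1 - x 1 * η 0)))) * x 2) * hp + (-2 * (b - 1) * (x 0 * ξ 1 - x 1 * ξ 0) - b * ((2 * δ * x
        0 + δ ^ 3 * σ) * ξ 1 - (δ ^ 3 * σ) * ξ 0) - (b - 1) * (2 * δ * (x 0 * (x 1 * ξ 2 - x 2 * ξ
        1) - x 2 * (x 0 * ξ 1 - x 1 * ξ 0)) + δ ^ 3 * σ * ((x 1 * ξ 2 - x 2 * ξ 1) + (x 2 * ξ 0 -
        x 0 * ξ 2) + (x 0 * ξ 1 - x 1 * ξ 0))) * x 2 + (2 * δ * (x 0 * (x 1 * ξ 2 - x 2 * ξ 1) - x
        2 * (x 0 * ξ 1 - x 1 * ξ 0)) + 2 * (2 * δ * (x 0 * (x 1 * ξ 2 - x 2 * ξ 1) - x 2 * (x 0 *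
        ξ 1 - x 1 * ξ 0)) + δ ^ 3 * σ * ((x 1 * ξ 2 - x 2 * ξ 1) + (x 2 * ξ 0 - x 0 * ξ 2) + (x 0
        * ξ 1 - x 1 * ξ 0)))) * x 2) * hq
  ext i
  exact key i

end

end Pool.Agent.Lib.MP_6fca61_gt_W
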