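import Mathlib

/-!
# MP_6fca61_gt (project W): explicit data of the metric on `S^2 x S^3`. Definitions.
-/

set_option autoImplicit false

namespace Pool.Agent.Lib.MP_6fca61_gt_W

noncomputable section

/-- Three dimensional Euclidean space. -/
abbrev E3 : Type := EuclideanSpace ℝ (Fin 3)

/-- The cross product. -/
def cr (u w : E3) : E3 :=
  !₂[u 1 * w 2 - u 2 * w 1, u 2 * w 0 - u 0 * w 2, u 0 * w 1 - u 1 * w 0]

/-- The dot product. -/
def dt (u w : E3) : ℝ := u 0 * w 0 + u 1 * w 1 + u 2 * w 2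

/-- The quadratic form `Q = diag(1, 0, -1)`, polarized. -/
def qf (u w : E3) : ℝ := u 0 * w 0 - u 2 * w 2

/-- `Q u`. -/
def Qv (u : E3) : E3 := !₂[u 0, 0, -u 2]

/-- The quadratic form `R`, polarized. -/
def rf (u w : E3) : ℝ :=
  2 * (u 0 * w 1 + u 1 * w 0) - 4 * (u 0 * w 2 + u 2 * w 0) + 2 * (u 1 * w 2 + u 2 * w 1)
    + 3 * (u 1 * w 1)

/-- The linear form `v = (1, 1, 1)`. -/
def vf (u : E3) : ℝ := u 0 + u 1 + u 2

/-- Logarithm of the conformal factor: `g = exp (2 psi) g_0`. -/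
def psi (δ : ℝ) (x : E3) : ℝ := δ * qf x x

/-- The exponent `h`. -/
def hh (δ σ : ℝ) (x : E3) : ℝ := δ * qf x x + δ ^ 3 * σ * vf x

/-- `β = exp h / 2`. -/
def be (δ σ : ℝ) (x : E3) : ℝ := Real.exp (hh δ σ x) / 2

/-- The linear part of the second order tensor. -/
def P1 (x u w : E3) : ℝ := qf x u * rf x w + rf x u * qf x w

/-- The quartic part. -/
def P0 (x u w : E3) : ℝ :=
  rf x x * (qf x u * qf x w) + 1 / 2 * qf x x * (qf x u * rf x w + rf x u * qf x w)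
    - 25 / 8 * (qf x u * rf (Qv x) w + rf (Qv x) u * qf x w)
    + 13 / 4 * (rf x u * qf (Qv x) w + qf (Qv x) u * rf x w)
    + 21 / 4 * rf (Qv x) (Qv x) * dt u w

/-- The derivative of `P1` in the direction `Z`. -/
def P1d (x Z u w : E3) : ℝ := qf Z u * rf x w + qf x u * rf Z w + rf Z u * qf x w + rf x u * qf Z w

/-- The second derivative of `P1` in the direction `Z`. -/
def P1dd (Z u w : E3) : ℝ := 2 * (qf Z u * rf Z w + rf Z u * qf Z w)

/-- The derivative of `P0` in the direction `Z`. -/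
def P0d (x Z u w : E3) : ℝ :=
  2 * rf x Z * (qf x u * qf x w) + rf x x * (qf Z u * qf x w + qf x u * qf Z w)
    + qf x Z * (qf x u * rf x w + rf x u * qf x w) + 1 / 2 * qf x x * P1d x Z u w
    - 25 / 8 * (qf Z u * rf (Qv x) w + qf x u * rf (Qv Z) w + rf (Qv Z) u * qf x w
      + rf (Qv x) u * qf Z w)
    + 13 / 4 * (rf Z u * qf (Qv x) w + rf x u * qf (Qv Z) w + qf (Qv Z) u * rf x w
      + qf (Qv x) u * rf Z w)
    + 21 / 2 * rf (Qv x) (Qv Z) * dt u w

/-- The second derivative of `P0` in the direction `Z`. -/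
def P0dd (x Z u w : E3) : ℝ :=
  2 * rf Z Z * (qf x u * qf x w) + 4 * rf x Z * (qf Z u * qf x w + qf x u * qf Z w)
    + 2 * rf x x * (qf Z u * qf Z w)
    + qf Z Z * (qf x u * rf x w + rf x u * qf x w) + 2 * qf x Z * P1d x Z u w
    + qf x x * (qf Z u * rf Z w + rf Z u * qf Z w)
    - 25 / 4 * (qf Z u * rf (Qv Z) w + rf (Qv Z) u * qf Z w)
    + 13 / 2 * (rf Z u * qf (Qv Z) w + qf (Qv Z) u * rf Z w)
    + 21 / 2 * rf (Qv Z) (Qv Z) * dt u w

/-- The form `S(x)(u, w)`. -/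
def Sf (δ σ : ℝ) (x u w : E3) : ℝ :=
  -(1 / 2) * (dt x u * dt x w) + δ ^ 3 * σ * (dt x u * vf w + vf u * dt x w)
    + δ ^ 4 * (rf u w + δ * P1 x u w + δ ^ 2 * P0 x u w)

/-- The derivative of `S` in the direction `Z`. -/
def Sd (δ σ : ℝ) (x Z u w : E3) : ℝ :=
  -(1 / 2) * (dt Z u * dt x w + dt x u * dt Z w) + δ ^ 3 * σ * (dt Z u * vf w + vf u * dt Z w)
    + δ ^ 4 * (δ * P1d x Z u w + δ ^ 2 * P0d x Z u w)

/-- The second derivative of `S` in the direction `Z`. -/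
def Sdd (δ : ℝ) (x Z u w : E3) : ℝ :=
  -(dt Z u * dt Z w) + δ ^ 4 * (δ * P1dd Z u w + δ ^ 2 * P0dd x Z u w)

/-- The bracket: the second covariant derivative of a family of quadratic forms, at `u`.
`S0, S1, SY, S2` are the values of `S`, of its derivatives along `X` and `Y` and of its second
derivative along the great circle; `al, ad, aY` are the connection vectors. -/
def brk (S0 S1 SY S2 : E3 → E3 → ℝ) (al ad aY : E3) (pX pY : ℝ) (u : E3) : ℝ :=
  S2 u u - 4 * S1 (cr al u) u - 2 * S0 (cr ad u) u + 2 * S0 (cr al (cr al u)) u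
    + 2 * S0 (cr al u) (cr al u) - pX * (S1 u u - 2 * S0 (cr al u) u)
    + pY * (SY u u - 2 * S0 (cr aY u) u)

/-- Orthonormal pairs. -/
def ON (x X : E3) : Prop := dt x x = 1 ∧ dt X X = 1 ∧ dt x X = 0

/-- `W = β² - 1 + Δh`. -/
def Wf (δ σ : ℝ) (x : E3) : ℝ :=
  be δ σ x ^ 2 - 1 - 6 * psi δ x - 2 * δ ^ 3 * σ * vf x

/-- The derivative of `h` in the direction `Z`. -/
def hd (δ σ : ℝ) (x Z : E3) : ℝ := 2 * δ * qf x Z + δ ^ 3 * σ * vf Z

/-- The derivative of `W` in the direction `Z`, tangent to the sphere. -/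
def Wd (δ σ : ℝ) (x Z : E3) : ℝ :=
  2 * be δ σ x ^ 2 * hd δ σ x Z - 12 * δ * qf x Z - 2 * δ ^ 3 * σ * vf Z

/-- The connection form `a(x)(Z)`. -/
def af (δ σ : ℝ) (x Z : E3) : E3 := (be δ σ x - 1) • cr x Z - hd δ σ x (cr x Z) • x

/-- The derivative of `t ↦ a(γ t)(γ' t)` at `0` along the great circle `γ` with
`γ 0 = x`, `γ' 0 = X`. -/
def ad (δ σ : ℝ) (x X : E3) : E3 :=
  (be δ σ x * hd δ σ x X) • cr x X - (2 * δ * qf X (cr x X)) • x - hd δ σ x (cr x X) • X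

/-- The bracket of `S` for the great circle through `x` with velocity `X`. -/
def Brk (δ σ : ℝ) (x X u : E3) : ℝ :=
  brk (Sf δ σ x) (Sd δ σ x X) (Sd δ σ x (cr x X)) (fun u w => Sdd δ x X u w - Sd δ σ x x u w)
    (af δ σ x X) (ad δ σ x X) (af δ σ x (cr x X)) (2 * δ * qf x X) (2 * δ * qf x (cr x X)) u

/-- The quantity which must be positive. -/
def Sig (δ σ : ℝ) (x X u : E3) : ℝ :=
  Real.exp (-(2 * psi δ x)) * (Wf δ σ x ^ 2 * dt x u ^ 2
    - ((Wd δ σ x X - 2 * (2 * δ * qf x X) * Wf δ σ x) * dt x u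
      + Wf δ σ x * be δ σ x * dt X u) ^ 2 / (1 + 6 * psi δ x))
    - Brk δ σ x X u

end

end Pool.Agent.Lib.MP_6fca61_gt_W
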