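import Pool.Agent.Lib.MP_6fca61_gt_W.Dat

/-!
# MP_6fca61_gt (project W): existence of data with the inequality (SIGMA)
-/

set_option autoImplicit false

open scoped ContDiff Topology RealInnerProductSpace

namespace Pool.Agent.Lib.MP_6fca61_gt_W

open Pool.Agent.MP6fca61

noncomputable section

theorem Sf_symm (δ σ : ℝ) (x u w : E3) : Sf δ σ x u w = Sf δ σ x w u := by
  simp only [Sf, P1, P0, rf_symm u w, dt_symm u w]
  ring

theorem Sd_symm (δ σ : ℝ) (x Z u w : E3) : Sd δ σ x Z u w = Sd δ σ x Z w u := by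
  simp only [Sd, P1d, P0d, dt_symm u w]
  ring

theorem ON_of {x ξ : E3} (hx : ‖x‖ = 1) (hξ : ‖ξ‖ = 1) (h : ⟪x, ξ⟫ = 0) : ON x ξ := by
  refine ⟨?_, ?_, ?_⟩
  · rw [← inner_dt, real_inner_self_eq_norm_sq, hx, one_pow]
  · rw [← inner_dt, real_inner_self_eq_norm_sq, hξ, one_pow]
  · rw [← inner_dt, h]

/-- The data. -/
def DD (δ σ : ℝ) : PC.Dat where
  psi := psi δ
  a := aL δ σ
  S := SL δ σ
  Om := Om δ σ
  spsi := cd_psi δ
  sa := cd_aL δ σ
  sS := cd_SL δ σ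
  sOm := cd_Om δ σ
  symS := fun x u v => by
    rw [SL_inner, real_inner_comm, SL_inner, Sf_symm]
  curvature := fun x ξ η hx hξ hη => by
    rw [inner_dt]
    refine curvature δ σ x ξ η ?_ ?_ ?_
    · rw [← inner_dt, real_inner_self_eq_norm_sq, hx, one_pow]
    · rw [← inner_dt, hξ]
    · rw [← inner_dt, hη]

theorem ev_i1 (x e : E3) : PC.ev x e PC.i1 = e := by
  rw [PC.ev_apply]
  simp [PC.i1]

theorem norm_i1 : ‖PC.i1‖ ^ 2 = 1 := by
  rw [EuclideanSpace.norm_sq_eq]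
  simp [PC.i1, Fin.sum_univ_two]

theorem inner_cmt (m : E3) (A : E3 →L[ℝ] E3) (u w : E3) :
    ⟪PC.cmt m A u, w⟫ = -⟪A u, cr m w⟫ - ⟪A (cr m u), w⟫ := by
  have h : PC.cmt m A u = cr m (A u) - A (cr m u) := rfl
  rw [h, inner_sub_left]
  congr 1
  rw [inner_dt, inner_dt]
  simp only [dt, cr]
  simp
  ring

theorem qf_trace (x e : E3) (h : ON x e) : qf x x + qf e e + qf (cr x e) (cr x e) = 0 := by
  have h0 := congrArg (fun z : E3 => z 0) (eq_cb x e h !₂[1, 0, 0])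
  have h2 := congrArg (fun z : E3 => z 2) (eq_cb x e h !₂[0, 0, 1])
  simp [cb, dt] at h0 h2
  simp only [qf]
  linear_combination h2 - h0

theorem K_eq (δ σ : ℝ) (x e : E3) (h : ON x e) :
    (DD δ σ).K x e = Real.exp (-(2 * psi δ x)) * (1 + 6 * psi δ x) := by
  have h1 : (DD δ σ).K x e = Real.exp (-2 * psi δ x) * (1 - (fderiv ℝ (fderiv ℝ (psi δ)) x e e +
    fderiv ℝ (fderiv ℝ (psi δ)) x (cr x e) (cr x e) - 2 * fderiv ℝ (psi δ) x x)) := rfl
  rw [h1, ddpsi, ddpsi, dpsi]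
  have h2 : qf x x + qf e e + qf (cr x e) (cr x e) = 0 := qf_trace x e h
  have h3 : -2 * psi δ x = -(2 * psi δ x) := by ring
  rw [h3]
  congr 1
  simp only [psi]
  linear_combination (-2 * δ) * h2

theorem acc_eq (δ σ : ℝ) (x e : E3) :
    (DD δ σ).acc x e PC.i1 = (-(2 * δ * qf x e)) • e + (2 * δ * qf x (cr x e)) • cr x e - x := by
  have h : (DD δ σ).acc x e PC.i1 = (-2 * fderiv ℝ (psi δ) x (PC.ev x e PC.i1)) •
      PC.ev x e PC.i1 + ‖PC.i1‖ ^ 2 • (fderiv ℝ (psi δ) x e • e +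
        fderiv ℝ (psi δ) x (cr x e) • cr x e) - ‖PC.i1‖ ^ 2 • x := rfl
  rw [h, norm_i1, ev_i1, dpsi, dpsi]
  module

theorem DOm_eq (δ σ : ℝ) (x e u : E3) (h : ON x e) :
    ⟪(DD δ σ).DOm x e PC.i1, u⟫ = Real.exp (-(2 * psi δ x)) *
      ((Wd δ σ x e - 2 * (2 * δ * qf x e) * Wf δ σ x) * dt x u
      + Wf δ σ x * be δ σ x * dt e u) := by
  have h1 : (DD δ σ).DOm x e PC.i1 = fderiv ℝ (Om δ σ) x (PC.ev x e PC.i1) +
      cr (aL δ σ x (PC.ev x e PC.i1)) (Om δ σ x) := rfl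
  rw [h1, ev_i1, dOm, aL_apply]
  have h2 : cr (af δ σ x e) (Om δ σ x) =
      ((be δ σ x - 1) * (Real.exp (-(2 * psi δ x)) * Wf δ σ x)) • e := by
    have h3 : cr (af δ σ x e) (Om δ σ x) =
        -(((be δ σ x - 1) * (Real.exp (-(2 * psi δ x)) * Wf δ σ x)) • cr x (cr x e)) := by
      simp only [af, Om]
      ext i
      fin_cases i <;> simp [cr] <;> ring
    rw [h3, cr_x_Y x e h]
    simp
  rw [h2, inner_add_left, inner_add_left, inner_smul_left, inner_smul_left, inner_smul_left,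
    inner_dt, inner_dt]
  simp only [conj_trivial]
  ring

theorem DDS_eq (δ σ : ℝ) (x e u : E3) :
    ⟪(DD δ σ).DDS x e PC.i1 u, u⟫ = Brk δ σ x e u := by
  have h1 : (DD δ σ).DDS x e PC.i1 =
      fderiv ℝ (fderiv ℝ (SL δ σ)) x (PC.ev x e PC.i1) (PC.ev x e PC.i1) +
      fderiv ℝ (SL δ σ) x ((DD δ σ).acc x e PC.i1) +
      (2 : ℝ) • PC.cmt (aL δ σ x (PC.ev x e PC.i1)) (fderiv ℝ (SL δ σ) x (PC.ev x e PC.i1)) +
      PC.cmt (aL δ σ x (PC.ev x e PC.i1)) (PC.cmt (aL δ σ x (PC.ev x e PC.i1)) (SL δ σ x)) +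
      PC.cmt (fderiv ℝ (aL δ σ) x (PC.ev x e PC.i1) (PC.ev x e PC.i1) +
        aL δ σ x ((DD δ σ).acc x e PC.i1)) (SL δ σ x) := rfl
  have h2 : fderiv ℝ (aL δ σ) x e e = ad δ σ x e := by
    rw [da]
    simp only [ad]
    ext i
    fin_cases i <;> simp [cr, qf, vf] <;> ring
  have h3 : fderiv ℝ (SL δ σ) x ((-(2 * δ * qf x e)) • e + (2 * δ * qf x (cr x e)) • cr x e - x) =
      (-(2 * δ * qf x e)) • fderiv ℝ (SL δ σ) x e +
        (2 * δ * qf x (cr x e)) • fderiv ℝ (SL δ σ) x (cr x e) - fderiv ℝ (SL δ σ) x x := by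
    rw [map_sub, map_add, map_smul, map_smul]
  have h4 : aL δ σ x ((-(2 * δ * qf x e)) • e + (2 * δ * qf x (cr x e)) • cr x e - x) =
      (-(2 * δ * qf x e)) • af δ σ x e + (2 * δ * qf x (cr x e)) • af δ σ x (cr x e) := by
    rw [map_sub, map_add, map_smul, map_smul, a_x, sub_zero, aL_apply, aL_apply]
  rw [h1, ev_i1, acc_eq, h2, h3, h4]
  simp only [add_apply, sub_apply, smul_apply, inner_add_left, inner_sub_left, inner_smul_left,
    conj_trivial, inner_cmt, ddS, dS, aL_apply, cr_add, cr_smul, inner_add_right,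
    inner_smul_right, map_add, map_smul, SL_inner]
  simp only [Brk, brk, Sf_symm δ σ x u, Sd_symm δ σ x e u]
  ring

theorem exists_dat : ∃ D : PC.Dat, D.Sig := by
  obtain ⟨σ, -, δ0, hδ0, hS⟩ := sigma_pos
  obtain ⟨hp, hS⟩ := hS (δ0 / 2) (by positivity) (by linarith)
  refine ⟨DD (δ0 / 2) σ, fun x e hxe => ?_⟩
  have hon := ON_of hxe.nx hxe.ne hxe.xe
  have hpx := hp x hon.1
  rw [K_eq _ _ _ _ hon]
  refine ⟨mul_pos (Real.exp_pos _) hpx, fun u hu => ?_⟩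
  have h1 := hS x e u hon hu
  rw [DDS_eq, DOm_eq _ _ _ _ _ hon]
  have h2 : Real.exp (2 * (DD (δ0 / 2) σ).psi x) * ⟪(DD (δ0 / 2) σ).Om x, u⟫ ^ 2 =
      Real.exp (-(2 * psi (δ0 / 2) x)) * (Wf (δ0 / 2) σ x ^ 2 * dt x u ^ 2) := by
    have h3 : ⟪(DD (δ0 / 2) σ).Om x, u⟫ =
        Real.exp (-(2 * psi (δ0 / 2) x)) * Wf (δ0 / 2) σ x * dt x u := by
      have h4 : (DD (δ0 / 2) σ).Om x = Om (δ0 / 2) σ x := rfl
      rw [h4, Om, inner_smul_left, inner_dt, conj_trivial]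
    have h5 : (DD (δ0 / 2) σ).psi x = psi (δ0 / 2) x := rfl
    have he : Real.exp (2 * psi (δ0 / 2) x) * Real.exp (-(2 * psi (δ0 / 2) x)) = 1 := by
      rw [← Real.exp_add, add_neg_cancel, Real.exp_zero]
    rw [h3, h5]
    linear_combination (Real.exp (-(2 * psi (δ0 / 2) x)) * Wf (δ0 / 2) σ x ^ 2 * dt x u ^ 2) * he
  rw [h2]
  refine lt_of_lt_of_eq h1 ?_
  simp only [Sig]
  have he := Real.exp_pos (-(2 * psi (δ0 / 2) x))
  generalize Real.exp (-(2 * psi (δ0 / 2) x)) = E at he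
  field_simp

end

end Pool.Agent.Lib.MP_6fca61_gt_W
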