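import Pool.Agent.Lib.MP_6fca61_gt_W.Def

/-!
# MP_6fca61_gt (project W): orthonormal frames.
-/

set_option autoImplicit false

namespace Pool.Agent.Lib.MP_6fca61_gt_W

noncomputable section

/-- The combination `a x + b X + c (x × X)`. -/
def cb (x X : E3) (a b c : ℝ) : E3 := a • x + b • X + c • cr x X

theorem cr_cb_x (x X : E3) (h : ON x X) (a b c : ℝ) :
    cr x (cb x X a b c) = cb x X 0 (-c) b := by
  obtain ⟨h1, h2, h3⟩ := h
  simp only [dt] at h1 h2 h3
  ext i
  fin_cases i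
  · simp [cr, cb]
    linear_combination (-c * X 0) * h1 + c * x 0 * h3
  · simp [cr, cb]
    linear_combination (-c * X 1) * h1 + c * x 1 * h3
  · simp [cr, cb]
    linear_combination (-c * X 2) * h1 + c * x 2 * h3

theorem cr_cb_X (x X : E3) (h : ON x X) (a b c : ℝ) :
    cr X (cb x X a b c) = cb x X c 0 (-a) := by
  obtain ⟨h1, h2, h3⟩ := h
  simp only [dt] at h1 h2 h3
  ext i
  fin_cases i
  · simp [cr, cb]
    linear_combination (c * x 0) * h2 - c * X 0 * h3
  · simp [cr, cb]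
    linear_combination (c * x 1) * h2 - c * X 1 * h3
  · simp [cr, cb]
    linear_combination (c * x 2) * h2 - c * X 2 * h3

theorem cr_cb_Y (x X : E3) (h : ON x X) (a b c : ℝ) :
    cr (cr x X) (cb x X a b c) = cb x X (-b) a 0 := by
  obtain ⟨h1, h2, h3⟩ := h
  simp only [dt] at h1 h2 h3
  ext i
  fin_cases i
  · simp [cr, cb]
    linear_combination (a * X 0) * h1 - a * x 0 * h3 - b * x 0 * h2 + b * X 0 * h3
  · simp [cr, cb]
    linear_combination (a * X 1) * h1 - a * x 1 * h3 - b * x 1 * h2 + b * X 1 * h3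
  · simp [cr, cb]
    linear_combination (a * X 2) * h1 - a * x 2 * h3 - b * x 2 * h2 + b * X 2 * h3

theorem cr_add (u v w : E3) : cr (u + v) w = cr u w + cr v w := by
  ext i; fin_cases i <;> simp [cr] <;> ring

theorem cr_sub (u v w : E3) : cr (u - v) w = cr u w - cr v w := by
  ext i; fin_cases i <;> simp [cr] <;> ring

theorem cr_smul (a : ℝ) (u w : E3) : cr (a • u) w = a • cr u w := by
  ext i; fin_cases i <;> simp [cr] <;> ring

theorem cb_add (x X : E3) (a b c a' b' c' : ℝ) :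
    cb x X a b c + cb x X a' b' c' = cb x X (a + a') (b + b') (c + c') := by
  simp only [cb, add_smul]; abel

theorem cb_sub (x X : E3) (a b c a' b' c' : ℝ) :
    cb x X a b c - cb x X a' b' c' = cb x X (a - a') (b - b') (c - c') := by
  simp only [cb, sub_smul]; abel

theorem smul_cb (x X : E3) (t a b c : ℝ) : t • cb x X a b c = cb x X (t * a) (t * b) (t * c) := by
  simp only [cb, smul_add, smul_smul]

theorem cr_x_Y (x X : E3) (h : ON x X) : cr x (cr x X) = -X := by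
  have := cr_cb_x x X h 0 0 1
  simpa [cb] using this

/-- Every vector is a combination of the frame. -/
theorem eq_cb (x X : E3) (h : ON x X) (u : E3) :
    u = cb x X (dt x u) (dt X u) (dt (cr x X) u) := by
  obtain ⟨h1, h2, h3⟩ := h
  simp only [dt] at h1 h2 h3
  ext i
  fin_cases i
  · simp [cr, cb, dt]
    linear_combination (-u 0 * (X 0 * X 0 + X 1 * X 1 + X 2 * X 2)
      + (X 0 * u 0 + X 1 * u 1 + X 2 * u 2) * X 0) * h1
      + (-u 0 + (x 0 * u 0 + x 1 * u 1 + x 2 * u 2) * x 0) * h2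
      + (u 0 * (x 0 * X 0 + x 1 * X 1 + x 2 * X 2)
        - (x 0 * u 0 + x 1 * u 1 + x 2 * u 2) * X 0
        - (X 0 * u 0 + X 1 * u 1 + X 2 * u 2) * x 0) * h3
  · simp [cr, cb, dt]
    linear_combination (-u 1 * (X 0 * X 0 + X 1 * X 1 + X 2 * X 2)
      + (X 0 * u 0 + X 1 * u 1 + X 2 * u 2) * X 1) * h1
      + (-u 1 + (x 0 * u 0 + x 1 * u 1 + x 2 * u 2) * x 1) * h2
      + (u 1 * (x 0 * X 0 + x 1 * X 1 + x 2 * X 2)
        - (x 0 * u 0 + x 1 * u 1 + x 2 * u 2) * X 1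
        - (X 0 * u 0 + X 1 * u 1 + X 2 * u 2) * x 1) * h3
  · simp [cr, cb, dt]
    linear_combination (-u 2 * (X 0 * X 0 + X 1 * X 1 + X 2 * X 2)
      + (X 0 * u 0 + X 1 * u 1 + X 2 * u 2) * X 2) * h1
      + (-u 2 + (x 0 * u 0 + x 1 * u 1 + x 2 * u 2) * x 2) * h2
      + (u 2 * (x 0 * X 0 + x 1 * X 1 + x 2 * X 2)
        - (x 0 * u 0 + x 1 * u 1 + x 2 * u 2) * X 2
        - (X 0 * u 0 + X 1 * u 1 + X 2 * u 2) * x 2) * h3

theorem exists_cb (x X : E3) (h : ON x X) (u : E3) : ∃ a b c : ℝ, u = cb x X a b c :=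
  ⟨_, _, _, eq_cb x X h u⟩

/-- A bilinear function. -/
def IsBil (B : E3 → E3 → ℝ) : Prop :=
  (∀ u v w, B (u + v) w = B u w + B v w) ∧ (∀ u v w, B u (v + w) = B u v + B u w) ∧
    (∀ (a : ℝ) u v, B (a • u) v = a * B u v) ∧ ∀ (a : ℝ) u v, B u (a • v) = a * B u v

theorem IsBil.cb {B : E3 → E3 → ℝ} (h : IsBil B) (x X : E3) (a b c a' b' c' : ℝ) :
    B (cb x X a b c) (cb x X a' b' c') =
      a * a' * B x x + a * b' * B x X + a * c' * B x (cr x X) + b * a' * B X x + b * b' * B X X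
      + b * c' * B X (cr x X) + c * a' * B (cr x X) x + c * b' * B (cr x X) X
      + c * c' * B (cr x X) (cr x X) := by
  obtain ⟨h1, h2, h3, h4⟩ := h
  simp only [MP_6fca61_gt_W.cb, h1, h2, h3, h4]
  ring

end

end Pool.Agent.Lib.MP_6fca61_gt_W
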