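import Pool.Agent.Lib.MP_6fca61_gt_W.NId

/-!
# MP_6fca61_gt (project W): the key identity in a frame.
-/

set_option autoImplicit false

namespace Pool.Agent.Lib.MP_6fca61_gt_W

noncomputable section

/-- The function `N` on the frames. -/
def NNf (x X : E3) : ℝ :=
  NN (qf x x) (qf x X) (qf x (cr x X)) (qf X X) (qf X (cr x X)) (qf (cr x X) (cr x X))
    (rf x x) (rf x X) (rf x (cr x X)) (rf X X) (rf X (cr x X)) (rf (cr x X) (cr x X))

theorem NNf_eq_two (x X : E3) (h : ON x X) (hv : vf (cr x X) = 0) : NNf x X = 2 := by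
  have hh := eq_cb x X h !₂[(1 : ℝ), 1, 1]
  have k0 : dt (cr x X) !₂[(1 : ℝ), 1, 1] = 0 := by
    rw [← hv]; simp [dt, vf]
  rw [k0] at hh
  have kx : dt x !₂[(1 : ℝ), 1, 1] = vf x := by simp [dt, vf]
  have kX : dt X !₂[(1 : ℝ), 1, 1] = vf X := by simp [dt, vf]
  rw [kx, kX] at hh
  obtain ⟨h1, h2, h3⟩ := h
  simp only [dt] at h1 h2 h3
  set p := vf x with hp
  set m := vf X with hm
  have hp' : p = x 0 + x 1 + x 2 := rfl
  have hm' : m = X 0 + X 1 + X 2 := rfl
  have v0 : (1 : ℝ) = p * x 0 + m * X 0 := by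
    have := congrArg (fun z : E3 => z 0) hh; simpa [cb] using this
  have v1 : (1 : ℝ) = p * x 1 + m * X 1 := by
    have := congrArg (fun z : E3 => z 1) hh; simpa [cb] using this
  have v2 : (1 : ℝ) = p * x 2 + m * X 2 := by
    have := congrArg (fun z : E3 => z 2) hh; simpa [cb] using this
  have hpm : p ^ 2 + m ^ 2 = 3 := by
    linear_combination p * hp' + m * hm' - v0 - v1 - v2
  have ha2 : p * X 2 - m * x 2 = -(p * X 0 - m * x 0) - (p * X 1 - m * x 1) := by
    linear_combination (-p) * hm' + m * hp'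
  have hw : 2 * ((p * X 0 - m * x 0) ^ 2 + (p * X 0 - m * x 0) * (p * X 1 - m * x 1)
      + (p * X 1 - m * x 1) ^ 2) = 3 := by
    have e : (p * X 0 - m * x 0) ^ 2 + (p * X 1 - m * x 1) ^ 2 + (p * X 2 - m * x 2) ^ 2 = 3 := by
      linear_combination p ^ 2 * h2 + m ^ 2 * h1 - 2 * p * m * h3 + hpm
    rw [ha2] at e
    linear_combination e
  have := NN_num (p * X 0 - m * x 0) (p * X 1 - m * x 1) p m (x 0) (x 1) (x 2) (X 0) (X 1) (X 2)
    ((cr x X) 0) ((cr x X) 1) ((cr x X) 2) hpm hw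
    (by linear_combination (1 / 3 : ℝ) * (-x 0 * hpm - p * v0))
    (by linear_combination (1 / 3 : ℝ) * (-x 1 * hpm - p * v1))
    (by linear_combination (1 / 3 : ℝ) * (-x 2 * hpm - p * v2 - m * ha2))
    (by linear_combination (1 / 3 : ℝ) * (-X 0 * hpm - m * v0))
    (by linear_combination (1 / 3 : ℝ) * (-X 1 * hpm - m * v1))
    (by linear_combination (1 / 3 : ℝ) * (-X 2 * hpm - m * v2 + p * ha2))
    (by
      simp [cr]
      linear_combination (1 / 3 : ℝ) * (-(x 1 * X 2 - x 2 * X 1) * hpm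
        - (p * X 2 - m * x 2) * v1 + (p * X 1 - m * x 1) * v2 + ha2))
    (by
      simp [cr]
      linear_combination (1 / 3 : ℝ) * (-(x 2 * X 0 - x 0 * X 2) * hpm
        - (p * X 0 - m * x 0) * v2 + (p * X 2 - m * x 2) * v0 - ha2))
    (by
      simp [cr]
      linear_combination (1 / 3 : ℝ) * (-(x 0 * X 1 - x 1 * X 0) * hpm
        - (p * X 1 - m * x 1) * v0 + (p * X 0 - m * x 0) * v1))
  rw [← this]
  rfl

end

end Pool.Agent.Lib.MP_6fca61_gt_W
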