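import Pool.Agent.Lib.MP_6fca61_gt_W.Core
import Pool.Agent.Lib.MP_6fca61_gt_W.NEq

/-!
# MP_6fca61_gt (project W): the last diagonal coefficient of the bracket.
-/

set_option autoImplicit false
set_option linter.unusedVariables false

namespace Pool.Agent.Lib.MP_6fca61_gt_W

noncomputable section

/-- The remainder of the last diagonal coefficient. -/
def GG (d t f0 f1 f2 q00 q01 q02 q11 q12 q22 r00 r01 r02 r11 r12 r22 : ℝ) : ℝ :=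
  5/2*d^5*f2^2*q00*q01*r01 + (-5/2)*d^5*f2^2*q00*q02*r02 + 2*d^5*f2^2*q01^2*r00
  + (-25/2)*d^5*f2^2*q01^2*r11 + 13*d^5*f2^2*q01*q11*r01 + (-13)*d^5*f2^2*q01*q12*r02
  + (-2)*d^5*f2^2*q02^2*r00 + 25/2*d^5*f2^2*q02^2*r22 + 13*d^5*f2^2*q02*q12*r01
  + (-13)*d^5*f2^2*q02*q22*r02 + 4*d^4*f2^2*q01*r01 + (-4)*d^4*f2^2*q02*r02
  + 5/2*d^3*f1*q00*q01*q02*r02 + 5/2*d^3*f1*q00*q02^2*r01 + (-25/2)*d^3*f1*q01^2*q02*r12
  + 4*d^3*f1*q01*q02^2*r00 + (-25/2)*d^3*f1*q01*q02^2*r11 + (-25/2)*d^3*f1*q01*q02^2*r22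
  + 13*d^3*f1*q01*q02*q11*r02 + 13*d^3*f1*q01*q02*q12*r01 + (-25/2)*d^3*f1*q02^3*r12
  + 13*d^3*f1*q02^2*q12*r02 + 13*d^3*f1*q02^2*q22*r01 + 2*d^3*f2^2*r11 + (-2)*d^3*f2^2*r22
  + 5/2*d^3*f2*q00*q01^2*r02 + 25/2*d^3*f2*q00*q01*q02*r01 + (-10)*d^3*f2*q00*q02^2*r02
  + (-25/2)*d^3*f2*q01^3*r12 + 12*d^3*f2*q01^2*q02*r00 + (-125/2)*d^3*f2*q01^2*q02*r11
  + (-25/2)*d^3*f2*q01^2*q02*r22 + 13*d^3*f2*q01^2*q11*r02 + 13*d^3*f2*q01^2*q12*r01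
  + (-25/2)*d^3*f2*q01*q02^2*r12 + 52*d^3*f2*q01*q02*q11*r01 + (-39)*d^3*f2*q01*q02*q12*r02
  + 13*d^3*f2*q01*q02*q22*r01 + (-8)*d^3*f2*q02^3*r00 + 50*d^3*f2*q02^3*r22
  + 52*d^3*f2*q02^2*q12*r01 + (-52)*d^3*f2*q02^2*q22*r02 + (-5/4)*d^2*t*f2*q00^2*r02
  + 25/4*d^2*t*f2*q00*q01*r12 + (-13/4)*d^2*t*f2*q00*q02*r00 + 25/4*d^2*t*f2*q00*q02*r22
  + (-13/2)*d^2*t*f2*q01^2*r02 + 25/4*d^2*t*f2*q01*q02*r01 + (-13/2)*d^2*t*f2*q01*q12*r00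
  + (-1/4)*d^2*t*f2*q02^2*r02 + (-13/2)*d^2*t*f2*q02*q22*r00 + 4*d^2*f1*q01*q02*r02
  + 4*d^2*f1*q02^2*r01 + 5/2*d^2*f2*q00^2*r02 + (-55/2)*d^2*f2*q00*q01*r12
  + 13/2*d^2*f2*q00*q02*r00 + (-15)*d^2*f2*q00*q02*r11 + (-25/2)*d^2*f2*q00*q02*r22
  + 21/2*d^2*f2*q00*q11*r02 + 21/2*d^2*f2*q00*q12*r01 + 25/2*d^2*f2*q01^2*r02
  + (-5)*d^2*f2*q01*q02*r01 + 12*d^2*f2*q01*q11*r12 + 9*d^2*f2*q01*q12*r00
  + (-1/2)*d^2*f2*q01*q12*r11 + 25/2*d^2*f2*q01*q12*r22 + (-31/2)*d^2*f2*q02^2*r02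
  + (-4)*d^2*f2*q02*q11*r00 + 25/2*d^2*f2*q02*q11*r11 + 25/2*d^2*f2*q02*q11*r22
  + 12*d^2*f2*q02*q12*r12 + 13*d^2*f2*q02*q22*r00 + (-13)*d^2*f2*q02*q22*r11
  + (-13)*d^2*f2*q11^2*r02 + (-13)*d^2*f2*q11*q12*r01 + (-13)*d^2*f2*q12^2*r02
  + (-13)*d^2*f2*q12*q22*r01 + (-2)*d*t*f2*q00*r02 + (-2)*d*t*f2*q02*r00 + 4*d*f1*q02*r12
  + 4*d*f2*q00*r02 + 4*d*f2*q02*r00 + 4*d*f2*q02*r11 + (-8)*d*f2*q02*r22 + (-4)*d*f2*q11*r02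
  + (-4)*d*f2*q12*r01 + 10*d*q00*q01^2*q02*r02 + 20*d*q00*q01*q02^2*r01 + (-10)*d*q00*q02^3*r02
  + (-50)*d*q01^3*q02*r12 + 24*d*q01^2*q02^2*r00 + (-100)*d*q01^2*q02^2*r11
  + (-50)*d*q01^2*q02^2*r22 + 52*d*q01^2*q02*q11*r02 + 52*d*q01^2*q02*q12*r01
  + (-50)*d*q01*q02^3*r12 + 52*d*q01*q02^2*q11*r01 + 52*d*q01*q02^2*q22*r01 + (-8)*d*q02^4*r00
  + 50*d*q02^4*r22 + 52*d*q02^3*q12*r01 + (-52)*d*q02^3*q22*r02 + (-2)*t*f2*r02 + 4*f2*r02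
  + 5/2*q00^2*q02*r02 + (-21)*q00*q01^2*r00 + (-115/2)*q00*q01*q02*r12 + (-21)*q00*q01*q11*r01
  + (-13)*q00*q01*q12*r02 + 55/2*q00*q02^2*r00 + (-30)*q00*q02^2*r11 + 5/2*q00*q02^2*r22
  + 21*q00*q02*q11*r02 + 79/2*q00*q02*q12*r01 + 21/2*q00*q02*q22*r02 + (-21)*q01^3*r01
  + (-11/2)*q01^2*q02*r02 + (-21)*q01^2*q11*r11 + (-9)*q01^2*q12*r12 + 23/2*q01*q02^2*r01
  + 31/2*q01*q02*q11*r12 + (-3)*q01*q02*q12*r00 + 65/2*q01*q02*q12*r11 + 109/2*q01*q02*q12*r22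
  + (-9/2)*q01*q02*q22*r12 + (-26)*q01*q11*q12*r02 + (-13)*q01*q12^2*r01
  + (-13)*q01*q12*q22*r02 + 14*q02^3*r02 + (-8)*q02^2*q11*r00 + 25*q02^2*q11*r11
  + 25*q02^2*q11*r22 + 45*q02^2*q12*r12 + 17*q02^2*q22*r00 + (-26)*q02^2*q22*r11
  + 9*q02^2*q22*r22 + (-26)*q02*q11^2*r02 + (-26)*q02*q11*q12*r01 + (-26)*q02*q12^2*r02
  + (-39)*q02*q12*q22*r01 + 13*q02*q22^2*r02

theorem dt_comm (u w : E3) : dt u w = dt w u := by simp only [dt]; ring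

theorem qf_comm (u w : E3) : qf u w = qf w u := by simp only [qf]; ring

theorem rf_comm (u w : E3) : rf u w = rf w u := by simp only [rf]; ring

theorem qf_cb (x X : E3) (a b c : ℝ) (u : E3) :
    qf (cb x X a b c) u = a * qf x u + b * qf X u + c * qf (cr x X) u := by
  simp [qf, cb]; ring

theorem rf_cb (x X : E3) (a b c : ℝ) (u : E3) :
    rf (cb x X a b c) u = a * rf x u + b * rf X u + c * rf (cr x X) u := by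
  simp [rf, cb]; ring

theorem dt_Qv (u w : E3) : dt u (Qv w) = qf u w := by simp [dt, qf, Qv]; ring

theorem rfQ (x X : E3) (h : ON x X) (z u : E3) :
    rf (Qv z) u = qf x z * rf x u + qf X z * rf X u + qf (cr x X) z * rf (cr x X) u := by
  conv_lhs => rw [eq_cb x X h (Qv z)]
  rw [rf_cb, dt_Qv, dt_Qv, dt_Qv]

theorem qfQ (x X : E3) (h : ON x X) (z u : E3) :
    qf (Qv z) u = qf x z * qf x u + qf X z * qf X u + qf (cr x X) z * qf (cr x X) u := by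
  conv_lhs => rw [eq_cb x X h (Qv z)]
  rw [qf_cb, dt_Qv, dt_Qv, dt_Qv]

theorem rfQQ (x X : E3) (h : ON x X) (z w : E3) :
    rf (Qv z) (Qv w) = qf x z * rf (Qv w) x + qf X z * rf (Qv w) X
      + qf (cr x X) z * rf (Qv w) (cr x X) := by
  rw [rfQ x X h z (Qv w), rf_comm x, rf_comm X, rf_comm (cr x X)]

/-- The form `p`. -/
def pf (δ : ℝ) (x u w : E3) : ℝ := rf u w + δ * P1 x u w + δ ^ 2 * P0 x u w

/-- Its derivative in the direction `Z`. -/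
def pd (δ : ℝ) (x Z u w : E3) : ℝ := δ * P1d x Z u w + δ ^ 2 * P0d x Z u w

/-- Its second derivative along the great circle. -/
def pdd (δ : ℝ) (x X u w : E3) : ℝ :=
  δ * P1dd X u w + δ ^ 2 * P0dd x X u w - pd δ x x u w

theorem k22_frame (δ t f0 f1 f2 p00 p01 x00 x01 x02 x11 y00 y01 y02 y11 y12 w00 w01 w02 w11 w12 : ℝ)
    (x X : E3) (h : ON x X) :
    k22 δ t f0 f1 f2 (qf x X) (qf x (cr x X)) (qf X (cr x X)) p00 p01 (pf δ x x (cr x X))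
      (pf δ x X X) (pf δ x X (cr x X)) (pf δ x (cr x X) (cr x X)) x00 x01 x02 x11
      (pd δ x X X (cr x X)) (pd δ x X (cr x X) (cr x X)) y00 y01 y02 y11 y12
      (pd δ x (cr x X) (cr x X) (cr x X)) w00 w01 w02 w11 w12 (pdd δ x X (cr x X) (cr x X)) =
    δ ^ 2 * (-NNf x X - 2 * t * f2 ^ 2) + δ ^ 3 *
      GG δ t f0 f1 f2 (qf x x) (qf x X) (qf x (cr x X)) (qf X X) (qf X (cr x X))
        (qf (cr x X) (cr x X)) (rf x x) (rf x X) (rf x (cr x X)) (rf X X) (rf X (cr x X))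
        (rf (cr x X) (cr x X)) := by
  have hx : dt x (cr x X) = 0 := by simp [dt, cr]; ring
  have hX : dt X (cr x X) = 0 := by simp [dt, cr]; ring
  have hY : dt (cr x X) (cr x X) = 1 := by
    obtain ⟨h1, h2, h3⟩ := h
    simp only [dt] at h1 h2 h3
    simp [dt, cr]
    linear_combination (X 0 * X 0 + X 1 * X 1 + X 2 * X 2) * h1 + h2
      - (x 0 * X 0 + x 1 * X 1 + x 2 * X 2) * h3
  have e1 := rfQQ x X h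
  have e2 := rfQ x X h
  have e3 := qfQ x X h
  simp only [k22, pf, pd, pdd, P1, P0, P1d, P0d, P1dd, P0dd, e1]
  simp only [e2, e3]
  simp only [hx, hX, hY, h.2.1, rf_comm (cr x X) x, rf_comm (cr x X) X, rf_comm X x,
    qf_comm (cr x X) x, qf_comm (cr x X) X, qf_comm X x]
  simp only [NNf, NN, GG]
  ring

end

end Pool.Agent.Lib.MP_6fca61_gt_W
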