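import Pool.Agent.Lib.MP_6fca61_gt_W.Frame

/-!
# MP_6fca61_gt (project W): the key identity.
-/

set_option autoImplicit false

namespace Pool.Agent.Lib.MP_6fca61_gt_W

noncomputable section

/-- The function `N` in terms of the entries of `Q` and `R` in the frame. -/
def NN (q00 q01 q02 q11 q12 q22 r00 r01 r02 r11 r12 r22 : ℝ) : ℝ :=
  -(4 * q02 * q02 * (r00 - r22) + 4 * q01 * q02 * r12 - 8 * q02 * q11 * r02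
      - 12 * q02 * q12 * r01 - 8 * q12 * q01 * r02 + 4 * q02 * r02 * (q22 + q00))
    - (2 * r11 * q02 * q02 + 8 * r01 * q02 * q12 + 2 * r00 * q12 * q12 - 4 * r00 * q02 * q02)
    - (2 * q11 * q02 * r02 + 4 * q01 * (q12 * r02 + q02 * r12) + 2 * q00 * q12 * r12
      - 4 * q00 * q02 * r02)
    + 25 / 2 * (q12 * (r02 * q01 + r12 * q11 + r22 * q12)
      - q02 * (r02 * q00 + r12 * q01 + r22 * q02))
    - 13 * (r12 * (q02 * q01 + q12 * q11 + q22 * q12)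
      - r02 * (q02 * q00 + q12 * q01 + q22 * q02))
    - 21 / 2 * ((q01 * (r00 * q01 + r01 * q11 + r02 * q12)
        + q11 * (r01 * q01 + r11 * q11 + r12 * q12) + q12 * (r02 * q01 + r12 * q11 + r22 * q12))
      - (q00 * (r00 * q00 + r01 * q01 + r02 * q02) + q01 * (r01 * q00 + r11 * q01 + r12 * q02)
        + q02 * (r02 * q00 + r12 * q01 + r22 * q02)))

/-- The forms in coordinates. -/
def q3 (x0 x2 y0 y2 : ℝ) : ℝ := x0 * y0 - x2 * y2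

/-- The forms in coordinates. -/
def r3 (x0 x1 x2 y0 y1 y2 : ℝ) : ℝ :=
  2 * (x0 * y1 + x1 * y0) - 4 * (x0 * y2 + x2 * y0) + 2 * (x1 * y2 + x2 * y1) + 3 * (x1 * y1)

theorem NN_num (a b p m x0 x1 x2 X0 X1 X2 Y0 Y1 Y2 : ℝ) (h1 : p ^ 2 + m ^ 2 = 3)
    (h2 : 2 * (a ^ 2 + a * b + b ^ 2) = 3)
    (e0 : x0 = (p - m * a) / 3) (e1 : x1 = (p - m * b) / 3) (e2 : x2 = (p + m * (a + b)) / 3)
    (f0 : X0 = (m + p * a) / 3) (f1 : X1 = (m + p * b) / 3) (f2 : X2 = (m - p * (a + b)) / 3)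
    (g0 : Y0 = (-a - 2 * b) / 3) (g1 : Y1 = (2 * a + b) / 3) (g2 : Y2 = (b - a) / 3) :
    NN (q3 x0 x2 x0 x2) (q3 x0 x2 X0 X2) (q3 x0 x2 Y0 Y2) (q3 X0 X2 X0 X2) (q3 X0 X2 Y0 Y2)
      (q3 Y0 Y2 Y0 Y2) (r3 x0 x1 x2 x0 x1 x2) (r3 x0 x1 x2 X0 X1 X2) (r3 x0 x1 x2 Y0 Y1 Y2)
      (r3 X0 X1 X2 X0 X1 X2) (r3 X0 X1 X2 Y0 Y1 Y2) (r3 Y0 Y1 Y2 Y0 Y1 Y2) = 2 := by
  subst e0 e1 e2 f0 f1 f2 g0 g1 g2
  simp only [NN, q3, r3]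
  linear_combination
    (
      (-32/243)*a^6 + (-32/81)*a^5*b + (-112/243)*a^4*b^2*p^4 + 20/27*a^4*b^2*p^2
      + 112/243*a^4*b^2*m^4 + (-20/27)*a^4*b^2*m^2 + 28/81*a^4*b^2 + 448/243*a^4*b*p^3*m
      + 448/243*a^4*b*p*m^3 + (-40/27)*a^4*b*p*m + 112/243*a^4*p^4 + 124/243*a^4*p^2
      + (-112/243)*a^4*m^4 + (-44/243)*a^4*m^2 + (-44/81)*a^4 + (-224/243)*a^3*b^3*p^4
      + 40/27*a^3*b^3*p^2 + 224/243*a^3*b^3*m^4 + (-40/27)*a^3*b^3*m^2 + 328/243*a^3*b^3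
      + 896/243*a^3*b^2*p^3*m + 896/243*a^3*b^2*p*m^3 + (-80/27)*a^3*b^2*p*m
      + 224/243*a^3*b*p^4 + 248/243*a^3*b*p^2 + (-224/243)*a^3*b*m^4 + (-88/243)*a^3*b*m^2
      + (-88/81)*a^3*b + (-14/27)*a^2*b^4*p^4 + 1/27*a^2*b^4*p^2 + 14/27*a^2*b^4*m^4
      + (-1/27)*a^2*b^4*m^2 + 161/81*a^2*b^4 + 56/27*a^2*b^3*p^3*m + 56/27*a^2*b^3*p*m^3
      + 86/27*a^2*b^3*p*m + 14/9*a^2*b^2*p^4 + 257/81*a^2*b^2*p^2 + (-14/9)*a^2*b^2*m^4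
      + (-217/81)*a^2*b^2*m^2 + (-23/9)*a^2*b^2 + (-56/27)*a^2*b*p^3*m + (-56/27)*a^2*b*p*m^3
      + (-28/27)*a^2*b*p*m + (-14/81)*a^2*p^4 + (-14/27)*a^2*p^2 + 14/81*a^2*m^4
      + 14/27*a^2*m^2 + 14/9*a^2 + (-14/243)*a*b^5*p^4 + (-19/27)*a*b^5*p^2 + 14/243*a*b^5*m^4
      + 19/27*a*b^5*m^2 + 101/81*a*b^5 + 56/243*a*b^4*p^3*m + 56/243*a*b^4*p*m^3
      + 14/3*a*b^4*p*m + 266/243*a*b^3*p^4 + 647/243*a*b^3*p^2 + (-266/243)*a*b^3*m^4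
      + (-607/243)*a*b^3*m^2 + (-163/81)*a*b^3 + (-56/27)*a*b^2*p^3*m + (-56/27)*a*b^2*p*m^3
      + (-28/27)*a*b^2*p*m + (-14/81)*a*b*p^4 + (-14/27)*a*b*p^2 + 14/81*a*b*m^4
      + 14/27*a*b*m^2 + 14/9*a*b + 7/486*b^6*p^4 + (-2/9)*b^6*p^2 + (-7/486)*b^6*m^4
      + 2/9*b^6*m^2 + 91/243*b^6 + (-14/243)*b^5*p^3*m + (-14/243)*b^5*p*m^3 + 34/27*b^5*p*m
      + 119/486*b^4*p^4 + 227/486*b^4*p^2 + (-119/486)*b^4*m^4 + (-379/486)*b^4*m^2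
      + (-85/162)*b^4 + (-14/27)*b^3*p^3*m + (-14/27)*b^3*p*m^3 + (-7/27)*b^3*p*m
      + (-7/162)*b^2*p^4 + (-7/54)*b^2*p^2 + 7/162*b^2*m^4 + 7/54*b^2*m^2 + 7/18*b^2) * h1
    + (
      (-16/81)*a^4 + (-32/81)*a^3*b + (-28/27)*a^2*b^2*p^2 + 10/9*a^2*b^2 + 28/27*a^2*b*p*m
      + 28/27*a^2*p^2 + (-10/9)*a^2 + (-28/27)*a*b^3*p^2 + 106/81*a*b^3 + 28/27*a*b^2*p*m
      + 28/27*a*b*p^2 + (-10/9)*a*b + (-7/27)*b^4*p^2 + 91/162*b^4 + 7/27*b^3*p*m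
      + 7/27*b^2*p^2 + 1/18*b^2 + 2/3) * h2

end

end Pool.Agent.Lib.MP_6fca61_gt_W
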