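import Pool.Agent.Lib.MP_6fca61_gt_W.Cont

/-!
# MP_6fca61_gt (project W): positivity for small parameters.
-/

set_option autoImplicit false
set_option linter.unusedVariables false

open scoped Topology

namespace Pool.Agent.Lib.MP_6fca61_gt_W

noncomputable section

/-- The scaled form. -/
def Fi (σ δ : ℝ) (z : (E3 × E3) × (ℝ × ℝ × ℝ)) : ℝ :=
  let x := z.1.1
  let X := z.1.2
  let a := z.2.1
  let b := z.2.2.1
  let c := z.2.2.2
  Real.exp (-(2 * psi δ x)) * ((1 + 6 * psi δ x) * (Wf δ σ x ^ 2 * a ^ 2)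
    - ((Wd δ σ x X - 2 * (2 * δ * qf x X) * Wf δ σ x) * a + Wf δ σ x * be δ σ x * b) ^ 2)
  - (1 + 6 * psi δ x) * (kk k00 δ σ x X * a ^ 2 + kk k11 δ σ x X * b ^ 2
    + kk k01 δ σ x X * (a * b) + kk k02 δ σ x X * (a * c) + kk k12 δ σ x X * (b * c)
    + (-NNf x X - 2 * be δ σ x * (σ * vf (cr x X)) ^ 2 + δ *
      GG δ (be δ σ x) (σ * vf x) (σ * vf X) (σ * vf (cr x X)) (qf x x) (qf x X)
        (qf x (cr x X)) (qf X X) (qf X (cr x X))
        (qf (cr x X) (cr x X)) (rf x x) (rf x X) (rf x (cr x X)) (rf X X) (rf X (cr x X))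
        (rf (cr x X) (cr x X))) * c ^ 2)

theorem Sig_cb (δ σ : ℝ) (x X : E3) (h : ON x X) (hp : 0 < 1 + 6 * psi δ x) (a b c : ℝ) :
    Sig δ σ x X (cb x X a b c) * (1 + 6 * psi δ x) = Fi σ δ ((x, X), (a, b, δ ^ 3 * c)) := by
  have hY : dt x (cb x X a b c) = a := by
    obtain ⟨h1, h2, h3⟩ := h
    simp only [dt] at h1 h2 h3
    simp [dt, cr, cb]
    linear_combination a * h1 + b * h3
  have hX : dt X (cb x X a b c) = b := by
    obtain ⟨h1, h2, h3⟩ := h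
    simp only [dt] at h1 h2 h3
    simp [dt, cr, cb]
    linear_combination b * h2 + a * h3
  have hk : kk k22 δ σ x X = δ ^ 2 * (-NNf x X - 2 * be δ σ x * (σ * vf (cr x X)) ^ 2)
      + δ ^ 3 * GG δ (be δ σ x) (σ * vf x) (σ * vf X) (σ * vf (cr x X)) (qf x x) (qf x X)
        (qf x (cr x X)) (qf X X) (qf X (cr x X))
        (qf (cr x X) (cr x X)) (rf x x) (rf x X) (rf x (cr x X)) (rf X X) (rf X (cr x X))
        (rf (cr x X) (cr x X)) := by
    simp only [kk]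
    exact k22_frame _ _ _ _ _ _ _ _ _ _ _ _ _ _ _ _ _ _ _ _ _ x X h
  have hp' : 1 + 6 * psi δ x ≠ 0 := hp.ne'
  simp only [Sig, Brk_cb δ σ x X h, hY, hX, hk, Fi]
  generalize Real.exp (-(2 * psi δ x)) = e
  generalize GG δ (be δ σ x) (σ * vf x) (σ * vf X) (σ * vf (cr x X)) (qf x x) (qf x X)
        (qf x (cr x X)) (qf X X) (qf X (cr x X))
        (qf (cr x X) (cr x X)) (rf x x) (rf x X) (rf x (cr x X)) (rf X X) (rf X (cr x X))
        (rf (cr x X) (cr x X)) = g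
  generalize 1 + 6 * psi δ x = w at hp'
  field_simp

theorem be_zero (σ : ℝ) (x : E3) : be 0 σ x = 1 / 2 := by simp [be, hh]

theorem Fi_zero (σ : ℝ) (x X : E3) (a b c : ℝ) : Fi σ 0 ((x, X), (a, b, c)) =
    5 / 16 * a ^ 2 + 7 / 64 * b ^ 2 + (σ ^ 2 * vf (cr x X) ^ 2 + NNf x X) * c ^ 2 := by
  simp only [Fi, kk, k00, k11, k01, k02, k12, be_zero, psi, Wf, Wd, hd]
  norm_num
  ring

theorem Fi_cont (σ : ℝ) :
    Continuous fun w : ℝ × ((E3 × E3) × (ℝ × ℝ × ℝ)) => Fi σ w.1 w.2 := by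
  have e1 := c_kk00 (T := ℝ × ((E3 × E3) × (ℝ × ℝ × ℝ))) σ (d := fun w => w.1)
    (A := fun w => w.2.1.1) (B := fun w => w.2.1.2) (by fun_prop) (by fun_prop) (by fun_prop)
  have e2 := c_kk11 (T := ℝ × ((E3 × E3) × (ℝ × ℝ × ℝ))) σ (d := fun w => w.1)
    (A := fun w => w.2.1.1) (B := fun w => w.2.1.2) (by fun_prop) (by fun_prop) (by fun_prop)
  have e3 := c_kk01 (T := ℝ × ((E3 × E3) × (ℝ × ℝ × ℝ))) σ (d := fun w => w.1)
    (A := fun w => w.2.1.1) (B := fun w => w.2.1.2) (by fun_prop) (by fun_prop) (by fun_prop)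
  have e4 := c_kk02 (T := ℝ × ((E3 × E3) × (ℝ × ℝ × ℝ))) σ (d := fun w => w.1)
    (A := fun w => w.2.1.1) (B := fun w => w.2.1.2) (by fun_prop) (by fun_prop) (by fun_prop)
  have e5 := c_kk12 (T := ℝ × ((E3 × E3) × (ℝ × ℝ × ℝ))) σ (d := fun w => w.1)
    (A := fun w => w.2.1.1) (B := fun w => w.2.1.2) (by fun_prop) (by fun_prop) (by fun_prop)
  simp only [Fi, NNf, NN, GG]
  fun_prop

theorem norm_sq_dt (x : E3) : ‖x‖ ^ 2 = dt x x := by
  rw [EuclideanSpace.norm_sq_eq]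
  simp [dt, Fin.sum_univ_three, sq]

theorem isCompact_ON : IsCompact {z : E3 × E3 | ON z.1 z.2} := by
  have hc : IsClosed {z : E3 × E3 | ON z.1 z.2} := by
    simp only [ON, dt]
    refine IsClosed.inter ?_ (IsClosed.inter ?_ ?_)
    · exact isClosed_eq (by fun_prop) (by fun_prop)
    · exact isClosed_eq (by fun_prop) (by fun_prop)
    · exact isClosed_eq (by fun_prop) (by fun_prop)
  refine Metric.isCompact_of_isClosed_isBounded hc ?_
  refine (Metric.isBounded_closedBall (x := (0 : E3 × E3)) (r := 1)).subset ?_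
  rintro ⟨x, X⟩ ⟨h1, h2, h3⟩
  simp only at h1 h2
  rw [mem_closedBall_zero_iff, Prod.norm_def]
  refine max_le ?_ ?_
  · have := norm_sq_dt x
    rw [h1] at this
    nlinarith [norm_nonneg x]
  · have := norm_sq_dt X
    rw [h2] at this
    nlinarith [norm_nonneg X]

theorem cont_N : Continuous fun z : E3 × E3 => NNf z.1 z.2 := by
  simp only [NNf, NN, qf, rf, cr]
  simp
  fun_prop

theorem cont_v : Continuous fun z : E3 × E3 => vf (cr z.1 z.2) := by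
  simp only [vf, cr]
  simp
  fun_prop

theorem exists_sigma : ∃ σ : ℝ, 0 < σ ∧ ∀ x X : E3, ON x X →
    0 < σ ^ 2 * vf (cr x X) ^ 2 + NNf x X := by
  obtain ⟨n, hn⟩ := isCompact_ON.elim_directed_cover
    (fun n : ℕ => {z : E3 × E3 | 0 < ((n : ℝ) + 1) ^ 2 * vf (cr z.1 z.2) ^ 2 + NNf z.1 z.2})
    (fun n => isOpen_lt continuous_const
      ((continuous_const.mul (cont_v.pow 2)).add cont_N)) (by
      rintro ⟨x, X⟩ h
      rw [Set.mem_iUnion]
      by_cases hv : vf (cr x X) = 0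
      · refine ⟨0, ?_⟩
        have := NNf_eq_two x X h hv
        simp [this, hv]
      · have hpos : 0 < vf (cr x X) ^ 2 := by positivity
        obtain ⟨n, hn⟩ := exists_nat_gt (-NNf x X / vf (cr x X) ^ 2)
        refine ⟨n, ?_⟩
        have h1 : -NNf x X < n * vf (cr x X) ^ 2 := by
          rwa [div_lt_iff₀ hpos] at hn
        have h2 : (n : ℝ) ≤ ((n : ℝ) + 1) ^ 2 := by
          have : (0 : ℝ) ≤ n := n.cast_nonneg
          nlinarith
        have h3 := mul_le_mul_of_nonneg_right h2 hpos.le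
        show 0 < ((n : ℝ) + 1) ^ 2 * vf (cr x X) ^ 2 + NNf x X
        linarith)
    (by
      refine directed_of_isDirected_le ?_
      intro n m hnm z hz
      simp only [Set.mem_ofPred_eq] at hz ⊢
      have h1 : ((n : ℝ) + 1) ^ 2 ≤ ((m : ℝ) + 1) ^ 2 := by
        have : (n : ℝ) ≤ m := by exact_mod_cast hnm
        have h0 : (0 : ℝ) ≤ n := n.cast_nonneg
        nlinarith
      have h2 := mul_le_mul_of_nonneg_right h1 (sq_nonneg (vf (cr z.1 z.2)))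
      linarith)
  refine ⟨(n : ℝ) + 1, by positivity, fun x X h => ?_⟩
  exact hn (show (x, X) ∈ {z : E3 × E3 | ON z.1 z.2} from h)

theorem ev_K (x X : E3) (a b c : ℝ) (h : ON x X) (hs : a ^ 2 + b ^ 2 + c ^ 2 = 1) (σ : ℝ)
    (hσ : ∀ x X : E3, ON x X → 0 < σ ^ 2 * vf (cr x X) ^ 2 + NNf x X) :
    0 < Fi σ 0 ((x, X), (a, b, c)) := by
  rw [Fi_zero]
  have h1 := hσ x X h
  set m := σ ^ 2 * vf (cr x X) ^ 2 + NNf x X
  by_cases hc : c = 0
  · subst hc
    nlinarith [sq_nonneg a, sq_nonneg b]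
  · have : 0 < m * c ^ 2 := by positivity
    nlinarith [sq_nonneg a, sq_nonneg b]

theorem isCompact_S : IsCompact {w : ℝ × ℝ × ℝ | w.1 ^ 2 + w.2.1 ^ 2 + w.2.2 ^ 2 = 1} := by
  refine Metric.isCompact_of_isClosed_isBounded (isClosed_eq (by fun_prop) (by fun_prop)) ?_
  refine (Metric.isBounded_closedBall (x := (0 : ℝ × ℝ × ℝ)) (r := 1)).subset ?_
  rintro ⟨a, b, c⟩ h
  simp only [Set.mem_ofPred_eq] at h
  rw [mem_closedBall_zero_iff, Prod.norm_def, Prod.norm_def]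
  simp only [Real.norm_eq_abs]
  refine max_le ?_ (max_le ?_ ?_) <;> rw [abs_le] <;> constructor <;> nlinarith [sq_nonneg a,
    sq_nonneg b, sq_nonneg c]

theorem psi_bound (x : E3) (h : dt x x = 1) : |qf x x| ≤ 1 := by
  simp only [dt] at h
  simp only [qf]
  rw [abs_le]
  constructor <;> nlinarith [sq_nonneg (x 0), sq_nonneg (x 1), sq_nonneg (x 2)]

theorem Fi_hom (σ δ : ℝ) (x X : E3) (a b c r : ℝ) (hr : r ≠ 0) :
    Fi σ δ ((x, X), (a, b, c)) = r ^ 2 * Fi σ δ ((x, X), (a / r, b / r, c / r)) := by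
  simp only [Fi]
  field_simp

theorem sigma_pos : ∃ σ : ℝ, 0 < σ ∧ ∃ δ0 : ℝ, 0 < δ0 ∧ ∀ δ : ℝ, 0 < δ → δ < δ0 →
    (∀ x : E3, dt x x = 1 → 0 < 1 + 6 * psi δ x) ∧
      ∀ x X u : E3, ON x X → u ≠ 0 → 0 < Sig δ σ x X u := by
  obtain ⟨σ, hσ0, hσ⟩ := exists_sigma
  have hev : ∀ᶠ δ in 𝓝 (0 : ℝ), ∀ z ∈ {z : E3 × E3 | ON z.1 z.2} ×ˢ
      {w : ℝ × ℝ × ℝ | w.1 ^ 2 + w.2.1 ^ 2 + w.2.2 ^ 2 = 1}, 0 < Fi σ δ z := by
    refine (isCompact_ON.prod isCompact_S).eventually_forall_of_forall_eventually ?_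
    rintro ⟨⟨x, X⟩, ⟨a, b, c⟩⟩ ⟨h1, h2⟩
    have h3 := ev_K x X a b c h1 h2 σ hσ
    exact (Fi_cont σ).continuousAt.eventually (lt_mem_nhds h3)
  obtain ⟨e, he, hball⟩ := Metric.eventually_nhds_iff.1 hev
  refine ⟨σ, hσ0, min e (1 / 12), by positivity, fun δ hδ hδ0 => ?_⟩
  have hp : ∀ x : E3, dt x x = 1 → 0 < 1 + 6 * psi δ x := by
    intro x hx
    have h1 := psi_bound x hx
    have h2 : δ < 1 / 12 := lt_of_lt_of_le hδ0 (min_le_right _ _)
    rw [abs_le] at h1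
    simp only [psi]
    nlinarith
  refine ⟨hp, fun x X u hon hu => ?_⟩
  have hδe : dist δ 0 < e := by
    rw [Real.dist_eq, sub_zero, abs_of_pos hδ]
    exact lt_of_lt_of_le hδ0 (min_le_left _ _)
  obtain ⟨a, b, c, rfl⟩ := exists_cb x X hon u
  have hpx := hp x hon.1
  have hkey := Sig_cb δ σ x X hon hpx a b c
  -- scaling
  set n : ℝ := a ^ 2 + b ^ 2 + (δ ^ 3 * c) ^ 2 with hn
  have hnpos : 0 < n := by
    rcases lt_or_eq_of_le (show 0 ≤ n by positivity) with h | h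
    · exact h
    · exfalso
      apply hu
      have ha : a = 0 := by nlinarith [sq_nonneg a, sq_nonneg b, sq_nonneg (δ ^ 3 * c)]
      have hb : b = 0 := by nlinarith [sq_nonneg a, sq_nonneg b, sq_nonneg (δ ^ 3 * c)]
      have hc' : (δ ^ 3 * c) = 0 := by nlinarith [sq_nonneg a, sq_nonneg b, sq_nonneg (δ ^ 3 * c)]
      have hc : c = 0 := by
        rcases mul_eq_zero.1 hc' with h' | h'
        · exact absurd h' (by positivity)
        · exact h'
      simp [ha, hb, hc, cb]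
  have hs : 0 < Real.sqrt n := Real.sqrt_pos.2 hnpos
  have hss : Real.sqrt n ^ 2 = n := Real.sq_sqrt hnpos.le
  have hmem : (((x, X), (a / Real.sqrt n, b / Real.sqrt n, δ ^ 3 * c / Real.sqrt n)) :
      (E3 × E3) × (ℝ × ℝ × ℝ)) ∈ {z : E3 × E3 | ON z.1 z.2} ×ˢ
      {w : ℝ × ℝ × ℝ | w.1 ^ 2 + w.2.1 ^ 2 + w.2.2 ^ 2 = 1} := by
    refine ⟨hon, ?_⟩
    show (a / Real.sqrt n) ^ 2 + (b / Real.sqrt n) ^ 2 + (δ ^ 3 * c / Real.sqrt n) ^ 2 = 1
    rw [div_pow, div_pow, div_pow, hss, ← add_div, ← add_div, ← hn, div_self hnpos.ne']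
  have hpos := hball hδe _ hmem
  have h5 : 0 < Fi σ δ ((x, X), (a, b, δ ^ 3 * c)) := by
    rw [Fi_hom σ δ x X a b (δ ^ 3 * c) (Real.sqrt n) hs.ne', hss]
    exact mul_pos hnpos hpos
  rw [← hkey] at h5
  exact (mul_pos_iff_of_pos_right hpx).1 h5

end

end Pool.Agent.Lib.MP_6fca61_gt_W
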